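import Mathlib

/-!
Unique games, their values, their semidefinite relaxation and the spectral gap of their graphs.
-/

open scoped BigOperators

namespace Pool.Agent.Lib.P325x

/-- A bipartite unique game with sides `U`, `W`, label set `Ω` and edges indexed by `ι`: the edge
`e` joins `src e` to `dst e` and carries the constraint permutation `perm e`. -/
structure Game (U W Ω ι : Type) where
  /-- the left end of an edge -/
  src : ι → U
  /-- the right end of an edge -/
  dst : ι → W
  /-- the constraint permutation of an edge -/
  perm : ι → Equiv.Perm Ω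

/-- The fraction of edges `e` that the labeling `(x, y)` satisfies: `perm e (x (src e)) = y (dst e)`. -/
noncomputable def Game.satFrac {U W Ω ι : Type} [Fintype ι] (I : Game U W Ω ι)
    (x : U → Ω) (y : W → Ω) : ℝ := by
  classical
  exact ((Finset.univ.filter (fun e => I.perm e (x (I.src e)) = y (I.dst e))).card : ℝ) /
    (Fintype.card ι : ℝ)

/-- The value of a unique game: the supremum over all labelings of the fraction of satisfied
edges. -/
noncomputable def Game.value {U W Ω ι : Type} [Fintype ι] (I : Game U W Ω ι) : ℝ :=
  ⨆ p : (U → Ω) × (W → Ω), I.satFrac p.1 p.2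

/-- The second largest eigenvalue of the normalised adjacency matrix of the (multi)graph of the
game is at most `μ`: for a uniformly random edge `e`, functions `f`, `g` with
`E f (src e) = E g (dst e) = 0` satisfy
`E f (src e) g (dst e) ≤ μ (E f (src e) ^ 2 + E g (dst e) ^ 2) / 2`. -/
def Game.SecondEigenvalueLE {U W Ω ι : Type} [Fintype ι] (I : Game U W Ω ι) (μ : ℝ) : Prop :=
  ∀ (f : U → ℝ) (g : W → ℝ), ∑ e, f (I.src e) = 0 → ∑ e, g (I.dst e) = 0 →
    ∑ e, f (I.src e) * g (I.dst e) ≤
      μ * ((∑ e, f (I.src e) ^ 2 + ∑ e, g (I.dst e) ^ 2) / 2)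

/-- The overlay of `a` copies of a game with `b` copies of the complete game on the same vertices,
in which a random left vertex and an independent random right vertex are joined by a uniformly
random permutation. An edge of the overlay is a copy number, two edges `e`, `e'` of the game and a
permutation `σ`; in the first `a` copies it is the edge `e` of the game, in the last `b` copies it
joins `src e` to `dst e'` with the constraint `σ`. -/
def Game.overlay {U W Ω ι : Type} (I : Game U W Ω ι) (a b : ℕ) :
    Game U W Ω ((Fin a ⊕ Fin b) × (ι × ι × Equiv.Perm Ω)) where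
  src := fun t => I.src t.2.1
  dst := fun t => Sum.elim (fun _ => I.dst t.2.1) (fun _ => I.dst t.2.2.1) t.1
  perm := fun t => Sum.elim (fun _ => I.perm t.2.1) (fun _ => t.2.2.2) t.1

/-- A feasible solution of the standard semidefinite relaxation: a vector for every vertex and
label, such that the vectors of one vertex are pairwise orthogonal and sum to a unit vector that
does not depend on the vertex, and all inner products are nonnegative. -/
def IsSDPSolution {V Ω κ : Type} [Fintype Ω] [Fintype κ]
    (X : V → Ω → EuclideanSpace ℝ κ) : Prop :=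
  (∀ p i j, i ≠ j → inner ℝ (X p i) (X p j) = 0) ∧
  (∀ p q i j, 0 ≤ inner ℝ (X p i) (X q j)) ∧
  ∃ z, ‖z‖ = 1 ∧ ∀ p, ∑ i, X p i = z

/-- The `ℓ₂²` triangle inequalities for the vectors of the solution and `0`. -/
def TriangleIneq {V Ω κ : Type} [Fintype κ] (X : V → Ω → EuclideanSpace ℝ κ) : Prop :=
  ∀ a ∈ insert 0 {v | ∃ p i, v = X p i}, ∀ b ∈ insert 0 {v | ∃ p i, v = X p i},
    ∀ c ∈ insert 0 {v | ∃ p i, v = X p i}, ‖a - c‖ ^ 2 ≤ ‖a - b‖ ^ 2 + ‖b - c‖ ^ 2

/-- The objective of the relaxation: the average over the edges `e` of the sum over the labels `i`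
of the inner product of the vectors of `(src e, i)` and `(dst e, perm e i)`. -/
noncomputable def Game.sdpObjective {U W Ω ι κ : Type} [Fintype Ω] [Fintype ι] [Fintype κ]
    (I : Game U W Ω ι) (X : U ⊕ W → Ω → EuclideanSpace ℝ κ) : ℝ :=
  (∑ e, ∑ i, inner ℝ (X (Sum.inl (I.src e)) i) (X (Sum.inr (I.dst e)) (I.perm e i))) /
    (Fintype.card ι : ℝ)

end Pool.Agent.Lib.P325x
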