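import Pool.Agent.Lib.P325x.Oper

/-!
Rounding of row stochastic matrices to labelings, and the mixed moments of a solution of the
semidefinite relaxation.
-/

open scoped BigOperators
open Finset

namespace Pool.Agent.Lib.P325x

section labels

variable {P Ω ι : Type*} [Fintype Ω] [Nonempty Ω] [Fintype ι]

theorem exists_label (φ : ι → P) (c : ι → Ω → ℝ) (a : P → Ω → ℝ) (ha : ∀ p i, 0 ≤ a p i)
    (hs : ∀ p, ∑ i, a p i = 1) :
    ∃ x : P → Ω, ∑ e, ∑ i, a (φ e) i * c e i ≤ ∑ e, c e (x (φ e)) := by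
  classical
  have h1 : ∀ p, ∃ j : Ω, ∀ i, (∑ e with φ e = p, c e i) ≤ ∑ e with φ e = p, c e j := fun p =>
    Finite.exists_max (fun i => ∑ e with φ e = p, c e i)
  choose x hx using h1
  refine ⟨x, ?_⟩
  rw [← sum_fiberwise_of_maps_to (t := univ.image φ) (g := φ)
      (fun e _ => mem_image_of_mem φ (mem_univ e)),
    ← sum_fiberwise_of_maps_to (t := univ.image φ) (g := φ) (f := fun e => c e (x (φ e)))
      (fun e _ => mem_image_of_mem φ (mem_univ e))]
  refine sum_le_sum fun p _ => ?_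
  have e1 : ∑ e with φ e = p, ∑ i, a (φ e) i * c e i = ∑ i, a p i * ∑ e with φ e = p, c e i := by
    rw [sum_comm]
    refine sum_congr rfl fun i _ => ?_
    rw [mul_sum]
    refine sum_congr rfl fun e he => ?_
    rw [(mem_filter.1 he).2]
  have e2 : ∑ e with φ e = p, c e (x (φ e)) = ∑ e with φ e = p, c e (x p) :=
    sum_congr rfl fun e he => by rw [(mem_filter.1 he).2]
  rw [e1, e2]
  calc ∑ i, a p i * ∑ e with φ e = p, c e i ≤ ∑ i, a p i * ∑ e with φ e = p, c e (x p) :=
        sum_le_sum fun i _ => mul_le_mul_of_nonneg_left (hx p i) (ha p i)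
    _ = ∑ e with φ e = p, c e (x p) := by rw [← sum_mul, hs, one_mul]

end labels

section value

variable {U W Ω ι : Type} [Fintype ι] (I : Game U W Ω ι)

theorem satFrac_nonneg (x : U → Ω) (y : W → Ω) : 0 ≤ I.satFrac x y := by
  classical
  rw [Game.satFrac]
  positivity

theorem satFrac_le_one (x : U → Ω) (y : W → Ω) : I.satFrac x y ≤ 1 := by
  classical
  rw [Game.satFrac]
  refine div_le_one_of_le₀ ?_ (Nat.cast_nonneg _)
  exact_mod_cast card_le_univ _

theorem satFrac_le_value (x : U → Ω) (y : W → Ω) : I.satFrac x y ≤ I.value := by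
  refine le_ciSup (f := fun p : (U → Ω) × (W → Ω) => I.satFrac p.1 p.2) ⟨1, ?_⟩ (x, y)
  rintro _ ⟨p, rfl⟩
  exact satFrac_le_one I _ _

theorem value_nonneg [Nonempty Ω] : 0 ≤ I.value :=
  (satFrac_nonneg I (fun _ => Classical.arbitrary Ω) (fun _ => Classical.arbitrary Ω)).trans
    (satFrac_le_value I _ _)

theorem value_le {c : ℝ} [Nonempty Ω] (h : ∀ x y, I.satFrac x y ≤ c) : I.value ≤ c :=
  ciSup_le fun p => h p.1 p.2

variable [Fintype Ω] [Nonempty Ω]

theorem rounding (a : U → Ω → ℝ) (b : W → Ω → ℝ) (ha : ∀ u i, 0 ≤ a u i)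
    (hb : ∀ w i, 0 ≤ b w i) (hsa : ∀ u, ∑ i, a u i = 1) (hsb : ∀ w, ∑ i, b w i = 1) :
    ∑ e, ∑ i, a (I.src e) i * b (I.dst e) (I.perm e i) ≤ Fintype.card ι * I.value := by
  classical
  obtain ⟨x, hx⟩ := exists_label I.src (fun e i => b (I.dst e) (I.perm e i)) a ha hsa
  obtain ⟨y, hy⟩ := exists_label I.dst
    (fun e j => if I.perm e (x (I.src e)) = j then (1 : ℝ) else 0) b hb hsb
  refine hx.trans ?_
  have h1 : ∑ e, b (I.dst e) (I.perm e (x (I.src e))) =
      ∑ e, ∑ i, b (I.dst e) i * if I.perm e (x (I.src e)) = i then (1 : ℝ) else 0 := by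
    refine sum_congr rfl fun e _ => ?_
    simp
  rw [h1]
  refine hy.trans ?_
  have h2 : ∑ e, (if I.perm e (x (I.src e)) = y (I.dst e) then (1 : ℝ) else 0) =
      Fintype.card ι * I.satFrac x y := by
    rcases isEmpty_or_nonempty ι with hι | hι
    · simp
    have h3 : (Fintype.card ι : ℝ) ≠ 0 := by
      exact_mod_cast Fintype.card_ne_zero
    rw [Game.satFrac, mul_div_cancel₀ _ h3, sum_boole]
  rw [h2]
  exact mul_le_mul_of_nonneg_left (satFrac_le_value I x y) (Nat.cast_nonneg _)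

end value

section solution

variable {U W Ω ι : Type} [Fintype ι] [Fintype Ω] (I : Game U W Ω ι)
variable {H : Type*} [NormedAddCommGroup H] [InnerProductSpace ℝ H] (X : U ⊕ W → Ω → H)

/-- the random vertex of a random edge -/
def Game.vtx (k : ι ⊕ ι) : U ⊕ W := Sum.elim (fun e => Sum.inl (I.src e)) (fun e => Sum.inr (I.dst e)) k

/-- the families of vectors of the ends of the edges -/
def Game.fam (k : ι ⊕ ι) : Ω → H := X (I.vtx k)

/-- the average projection -/
noncomputable def Game.B : H →ₗ[ℝ] H := avg (I.fam X)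

/-- one minus the average projection -/
noncomputable def Game.A : H →ₗ[ℝ] H := dif (I.fam X)

/-- the mixed moments -/
noncomputable def Game.mom (n l : ℕ) : ℝ :=
  (∑ e, ∑ i, inner ℝ (X (Sum.inl (I.src e)) i)
    ((I.A X ^ n) ((I.B X ^ l) (X (Sum.inr (I.dst e)) (I.perm e i))))) / (Fintype.card ι : ℝ)

theorem mom_succ (n l : ℕ) : I.mom X (n + 1) l = I.mom X n l - I.mom X n (l + 1) := by
  rw [Game.mom, Game.mom, Game.mom, ← sub_div, ← sum_sub_distrib]
  congr 1
  refine sum_congr rfl fun e _ => ?_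
  rw [← sum_sub_distrib]
  refine sum_congr rfl fun i _ => ?_
  rw [← inner_sub_right, ← map_sub, pow_succ, Module.End.mul_apply, pow_succ' _ l,
    Module.End.mul_apply, Game.A, dif_apply]
  rfl

variable {X} (horth : ∀ p i j, i ≠ j → inner ℝ (X p i) (X p j) = 0)
  (hpos : ∀ p q i j, 0 ≤ inner ℝ (X p i) (X q j)) {z : H} (hz : ‖z‖ = 1)
  (hsum : ∀ p, ∑ i, X p i = z)

include hpos in
theorem inner_B_pow_nonneg (l : ℕ) (p q : U ⊕ W) (i j : Ω) :
    0 ≤ inner ℝ (X p i) ((I.B X ^ l) (X q j)) := by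
  induction l generalizing p i with
  | zero => simpa using hpos p q i j
  | succ l ih =>
    rw [pow_succ', Module.End.mul_apply, Game.B, inner_avg]
    refine mul_nonneg (by positivity) (sum_nonneg fun k _ => sum_nonneg fun m _ => ?_)
    exact mul_nonneg (mul_nonneg (by positivity) (ih _ _)) (hpos _ _ _ _)

include horth hsum in
theorem inner_sum_z (p : U ⊕ W) (j : Ω) : inner ℝ (X p j) z = ‖X p j‖ ^ 2 := by
  classical
  rw [← hsum p, inner_sum, sum_eq_single j]
  · exact real_inner_self_eq_norm_sq _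
  · intro i _ hi
    exact horth p j i (Ne.symm hi)
  · intro h
    exact absurd (mem_univ j) h

include horth hsum hz in
theorem sum_norm_sq (p : U ⊕ W) : ∑ j, ‖X p j‖ ^ 2 = 1 := by
  rw [sum_congr rfl fun j _ => (inner_sum_z horth hsum p j).symm, ← sum_inner, hsum,
    real_inner_self_eq_norm_sq, hz]
  norm_num

include horth hsum in
theorem B_pow_z [Nonempty ι] (l : ℕ) : (I.B X ^ l) z = z := by
  induction l with
  | zero => simp
  | succ l ih =>
    rw [pow_succ, Module.End.mul_apply]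
    have : I.B X z = z := avg_fix (fun k => horth _) (fun k => hsum _)
    rw [this, ih]

include horth hpos hsum hz in
theorem mom_le_value [Nonempty ι] [Nonempty Ω] (l : ℕ) : I.mom X 0 (l + 1) ≤ I.value := by
  have hι : (0 : ℝ) < Fintype.card ι := by exact_mod_cast Fintype.card_pos
  rw [Game.mom, div_le_iff₀ hι]
  have hpiv : ∀ (k : ι ⊕ ι) (m : Ω),
      ∑ e, ∑ i, (‖I.fam X k m‖ ^ 2)⁻¹ *
        inner ℝ (I.fam X k m) ((I.B X ^ l) (X (Sum.inr (I.dst e)) (I.perm e i))) *
        inner ℝ (I.fam X k m) (X (Sum.inl (I.src e)) i) ≤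
      ‖I.fam X k m‖ ^ 2 * (Fintype.card ι * I.value) := by
    intro k m
    by_cases h0 : I.fam X k m = 0
    · simp [h0]
    have h1 : 0 < ‖I.fam X k m‖ ^ 2 := by
      have := norm_pos_iff.2 h0
      positivity
    have h2 := rounding I
      (fun u i => inner ℝ (I.fam X k m) (X (Sum.inl u) i) / ‖I.fam X k m‖ ^ 2)
      (fun w i => inner ℝ (I.fam X k m) ((I.B X ^ l) (X (Sum.inr w) i)) / ‖I.fam X k m‖ ^ 2)
      (fun u i => div_nonneg (hpos _ _ _ _) h1.le)
      (fun w i => div_nonneg (inner_B_pow_nonneg I hpos l _ _ _ _) h1.le)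
      (fun u => by
        rw [← sum_div, ← inner_sum, hsum]
        have := inner_sum_z horth hsum (I.vtx k) m
        rw [Game.fam, this]
        exact div_self h1.ne')
      (fun w => by
        rw [← sum_div, ← inner_sum, ← map_sum, hsum, B_pow_z I horth hsum]
        have := inner_sum_z horth hsum (I.vtx k) m
        rw [Game.fam, this]
        exact div_self h1.ne')
    refine le_trans (le_of_eq ?_) (mul_le_mul_of_nonneg_left h2 h1.le)
    rw [mul_sum]
    refine sum_congr rfl fun e _ => ?_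
    rw [mul_sum]
    refine sum_congr rfl fun i _ => ?_
    field_simp
  have hcard : (0 : ℝ) < Fintype.card (ι ⊕ ι) := by exact_mod_cast Fintype.card_pos
  calc ∑ e, ∑ i, inner ℝ (X (Sum.inl (I.src e)) i)
        ((I.A X ^ 0) ((I.B X ^ (l + 1)) (X (Sum.inr (I.dst e)) (I.perm e i))))
      = (Fintype.card (ι ⊕ ι) : ℝ)⁻¹ * ∑ k : ι ⊕ ι, ∑ m, ∑ e, ∑ i, (‖I.fam X k m‖ ^ 2)⁻¹ *
        inner ℝ (I.fam X k m) ((I.B X ^ l) (X (Sum.inr (I.dst e)) (I.perm e i))) *
        inner ℝ (I.fam X k m) (X (Sum.inl (I.src e)) i) := by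
        have e1 : ∀ e i, inner ℝ (X (Sum.inl (I.src e)) i)
            ((I.A X ^ 0) ((I.B X ^ (l + 1)) (X (Sum.inr (I.dst e)) (I.perm e i)))) =
            (Fintype.card (ι ⊕ ι) : ℝ)⁻¹ * ∑ k, ∑ m, (‖I.fam X k m‖ ^ 2)⁻¹ *
              inner ℝ (I.fam X k m) ((I.B X ^ l) (X (Sum.inr (I.dst e)) (I.perm e i))) *
              inner ℝ (I.fam X k m) (X (Sum.inl (I.src e)) i) := by
          intro e i
          rw [pow_zero, Module.End.one_apply, pow_succ', Module.End.mul_apply]
          exact inner_avg _ _ _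
        simp_rw [e1]
        rw [← sum_congr rfl fun e _ => mul_sum _ _ _, ← mul_sum]
        congr 1
        calc ∑ e, ∑ i, ∑ k, ∑ m, (‖I.fam X k m‖ ^ 2)⁻¹ *
              inner ℝ (I.fam X k m) ((I.B X ^ l) (X (Sum.inr (I.dst e)) (I.perm e i))) *
              inner ℝ (I.fam X k m) (X (Sum.inl (I.src e)) i)
            = ∑ e, ∑ k, ∑ m, ∑ i, (‖I.fam X k m‖ ^ 2)⁻¹ *
              inner ℝ (I.fam X k m) ((I.B X ^ l) (X (Sum.inr (I.dst e)) (I.perm e i))) *
              inner ℝ (I.fam X k m) (X (Sum.inl (I.src e)) i) := by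
              refine sum_congr rfl fun e _ => ?_
              rw [sum_comm]
              exact sum_congr rfl fun k _ => sum_comm
          _ = _ := by
              rw [sum_comm]
              exact sum_congr rfl fun k _ => sum_comm
    _ ≤ (Fintype.card (ι ⊕ ι) : ℝ)⁻¹ * ∑ k : ι ⊕ ι, ∑ m,
          ‖I.fam X k m‖ ^ 2 * (Fintype.card ι * I.value) :=
        mul_le_mul_of_nonneg_left (sum_le_sum fun k _ => sum_le_sum fun m _ => hpiv k m)
          (by positivity)
    _ = I.value * Fintype.card ι := by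
        have e2 : ∀ k : ι ⊕ ι, ∑ m, ‖I.fam X k m‖ ^ 2 * (Fintype.card ι * I.value) =
            Fintype.card ι * I.value := by
          intro k
          rw [← sum_mul, Game.fam, sum_norm_sq horth hz hsum, one_mul]
        rw [sum_congr rfl fun k _ => e2 k, sum_const, card_univ, nsmul_eq_mul, ← mul_assoc,
          inv_mul_cancel₀ hcard.ne', one_mul, mul_comm]

include hpos in
theorem mom_nonneg (l : ℕ) : 0 ≤ I.mom X 0 l := by
  rw [Game.mom]
  refine div_nonneg (sum_nonneg fun e _ => sum_nonneg fun i _ => ?_) (Nat.cast_nonneg _)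
  rw [pow_zero, Module.End.one_apply]
  exact inner_B_pow_nonneg I hpos l _ _ _ _

include horth hpos hsum hz in
theorem abs_mom_le [Nonempty ι] [Nonempty Ω] (n l : ℕ) :
    |I.mom X n (l + 1)| ≤ 2 ^ n * I.value := by
  induction n generalizing l with
  | zero =>
    rw [abs_of_nonneg (mom_nonneg I hpos _), pow_zero, one_mul]
    exact mom_le_value I horth hpos hz hsum l
  | succ n ih =>
    rw [mom_succ]
    calc |I.mom X n (l + 1) - I.mom X n (l + 1 + 1)| ≤ |I.mom X n (l + 1)| +
          |I.mom X n (l + 1 + 1)| := abs_sub _ _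
      _ ≤ 2 ^ n * I.value + 2 ^ n * I.value := add_le_add (ih l) (ih (l + 1))
      _ = 2 ^ (n + 1) * I.value := by ring

include horth hpos hsum hz in
theorem mom_zero_le [Nonempty ι] [Nonempty Ω] (n : ℕ) :
    I.mom X 0 0 ≤ I.mom X n 0 + (2 ^ n - 1) * I.value := by
  induction n with
  | zero => simp
  | succ n ih =>
    have h1 := mom_succ I X n 0
    have h2 := (abs_le.1 (abs_mom_le I horth hpos hz hsum n 0)).1
    have h3 : I.mom X n 0 = I.mom X (n + 1) 0 + I.mom X n (0 + 1) := by linarith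
    have h4 := (abs_le.1 (abs_mom_le I horth hpos hz hsum n 0)).2
    rw [pow_succ]
    nlinarith

end solution

end Pool.Agent.Lib.P325x
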