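import Pool.Agent.Lib.P325x.Affine
import Pool.Agent.Lib.P325x.Round

/-!
The noise games on the cosets of the affine functions.
-/

open scoped BigOperators
open Finset

namespace Pool.Agent.Lib.P325x

section game

/-- The noise game: a random point `x` of the large cube is joined to `x + z`, where the
coordinates of `z` are independent and equal to one with probability `m / q`. -/
def noiseGame (n q m : ℕ) : Game (Cu n) (Cu n) (Pt n) (Cu n × (Pt n → Fin q)) where
  src := fun e => nrm e.1
  dst := fun e => nrm (e.1 + nz m e.2)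
  perm := fun e => Equiv.addRight (lab (e.1 + nz m e.2) + lab e.1)

variable {n q m : ℕ}

theorem mean_cor_sq (hq : 0 < q) (hm : m ≤ q) :
    mean (fun r : Pt n → Fin q => cor (nz m r) ^ 2) =
      ((2 : ℝ) ^ n) ^ 2 * ((1 - 2 * (m : ℝ) / q) ^ 2 +
        (1 - (1 - 2 * (m : ℝ) / q) ^ 2) / 2 ^ n) := by
  classical
  have : NeZero q := ⟨hq.ne'⟩
  set ρ : ℝ := 1 - 2 * (m : ℝ) / q with hρ
  have h1 : ∀ r : Pt n → Fin q, cor (nz m r) ^ 2 =
      ∑ a : Pt n, ∑ b : Pt n, sg (nz m r a) * sg (nz m r b) := by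
    intro r
    rw [cor, sq, sum_mul_sum]
  have h2 : ∀ a b : Pt n, mean (fun r : Pt n → Fin q => sg (nz m r a) * sg (nz m r b)) =
      if a = b then 1 else ρ ^ 2 := by
    intro a b
    split_ifs with h
    · subst h
      rw [mean_congr fun r => sg_mul_self _, mean_const]
    · have h3 := mean_W_nz (A := Pt n) hq hm {a, b}
      rw [card_pair h] at h3
      rw [← h3]
      refine mean_congr fun r => ?_
      rw [W, prod_pair h]
  rw [mean_congr h1, mean_sum]
  calc ∑ a : Pt n, mean (fun r : Pt n → Fin q => ∑ b : Pt n, sg (nz m r a) * sg (nz m r b))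
      = ∑ a : Pt n, ∑ b : Pt n, (ρ ^ 2 + if a = b then 1 - ρ ^ 2 else 0) := by
        refine sum_congr rfl fun a _ => ?_
        rw [mean_sum]
        refine sum_congr rfl fun b _ => ?_
        rw [h2]
        split_ifs <;> ring
    _ = ∑ _a : Pt n, (2 ^ n * ρ ^ 2 + (1 - ρ ^ 2)) := by
        refine sum_congr rfl fun a _ => ?_
        rw [sum_add_distrib, sum_ite_eq, if_pos (mem_univ a), sum_const, card_univ,
          Fintype.card_fun, ZMod.card, Fintype.card_fin, nsmul_eq_mul]
        push_cast
        ring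
    _ = _ := by
        rw [sum_const, card_univ, Fintype.card_fun, ZMod.card, Fintype.card_fin, nsmul_eq_mul]
        push_cast
        field_simp

theorem mean_edge (F : Cu n × (Pt n → Fin q) → ℝ) :
    (∑ e, F e) / (Fintype.card (Cu n × (Pt n → Fin q)) : ℝ) =
      mean (fun x => mean (fun r => F (x, r))) := mean_prod F

theorem noiseGame_objective (hq : 0 < q) (hm : m ≤ q) :
    (noiseGame n q m).sdpObjective (sol (n := n)) = (1 - 2 * (m : ℝ) / q) ^ 2 +
        (1 - (1 - 2 * (m : ℝ) / q) ^ 2) / 2 ^ n := by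
  have : NeZero q := ⟨hq.ne'⟩
  rw [Game.sdpObjective]
  have h1 : ∀ e : Cu n × (Pt n → Fin q), ∑ i, inner ℝ
      (sol (n := n) (Sum.inl ((noiseGame n q m).src e)) i)
      (sol (n := n) (Sum.inr ((noiseGame n q m).dst e)) ((noiseGame n q m).perm e i)) =
      2 ^ n * (cst n ^ 2 * cor (nz m e.2) ^ 2) := by
    intro e
    have h2 : ∀ i : Pt n, inner ℝ
      (sol (n := n) (Sum.inl ((noiseGame n q m).src e)) i)
      (sol (n := n) (Sum.inr ((noiseGame n q m).dst e)) ((noiseGame n q m).perm e i)) =
      cst n ^ 2 * cor (nz m e.2) ^ 2 := by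
      intro i
      have e1 : sol (n := n) (Sum.inl ((noiseGame n q m).src e)) i =
          vec (e.1 + aff (lab e.1 + i) 0) := by
        rw [sol]
        simp only [noiseGame, Sum.elim_inl, id, nrm]
        rw [← vec_add_const (e.1 + aff (lab e.1 + i) 0) (e.1 0)]
        congr 1
        rw [add_assoc, add_assoc, ← aff_add, ← aff_add]
        simp only [add_zero, zero_add]
      have e2 : sol (n := n) (Sum.inr ((noiseGame n q m).dst e)) ((noiseGame n q m).perm e i) =
          vec (e.1 + nz m e.2 + aff (lab e.1 + i) 0) := by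
        rw [sol]
        simp only [noiseGame, Sum.elim_inr, id, nrm, Equiv.coe_addRight]
        rw [← vec_add_const (e.1 + nz m e.2 + aff (lab e.1 + i) 0) ((e.1 + nz m e.2) 0)]
        congr 1
        rw [add_assoc, add_assoc (e.1 + nz m e.2), ← aff_add, ← aff_add]
        simp only [add_zero, zero_add]
        congr 2
        calc lab (e.1 + nz m e.2) + (i + (lab (e.1 + nz m e.2) + lab e.1))
            = (lab (e.1 + nz m e.2) + lab (e.1 + nz m e.2)) + (lab e.1 + i) := by abel
          _ = _ := by rw [pt_add_self, zero_add]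
      rw [e1, e2, inner_vec]
      congr 3
      calc e.1 + aff (lab e.1 + i) 0 + (e.1 + nz m e.2 + aff (lab e.1 + i) 0)
          = (e.1 + e.1) + (aff (lab e.1 + i) 0 + aff (lab e.1 + i) 0) + nz m e.2 := by abel
        _ = nz m e.2 := by rw [cu_add_self, cu_add_self, zero_add, zero_add]
    rw [sum_congr rfl fun i _ => h2 i, sum_const, card_univ, Fintype.card_fun, ZMod.card,
      Fintype.card_fin, nsmul_eq_mul]
    push_cast
    rfl
  rw [sum_congr rfl fun e _ => h1 e, mean_edge]
  simp only
  rw [mean_const, mean_smul, mean_smul, mean_cor_sq hq hm, cst_sq]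
  field_simp

/-- invariant functions have no Fourier weight on the levels 1, 2, 3 -/
theorem hat_invariant {f : Cu n → ℝ} (hf : ∀ x γ ε, f (x + aff γ ε) = f x) {S : Finset (Pt n)}
    (hS : S ≠ ∅) (hS' : S.card < 4) : hat f S = 0 := by
  classical
  have key : ∀ γ ε, W S (aff γ ε) = -1 → hat f S = 0 := by
    intro γ ε hW
    have h1 := mean_equiv (Equiv.addRight (aff γ ε)) (fun x => f x * W S x)
    have h2 : mean (fun x => f (x + aff γ ε) * W S (x + aff γ ε)) = - hat f S := by
      rw [hat, ← neg_one_mul, ← mean_smul]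
      refine mean_congr fun x => ?_
      rw [hf, W_add, hW]
      ring
    simp only [Equiv.coe_addRight] at h1
    rw [h2, ← hat] at h1
    linarith
  have hc : W S (aff 0 1) = (-1) ^ S.card := by
    rw [W]
    simp only [aff, zero_dotProduct, zero_add, sg_one, prod_const]
  have hpos : 0 < S.card := card_pos.2 (nonempty_iff_ne_empty.2 hS)
  obtain h | h | h : S.card = 1 ∨ S.card = 3 ∨ S.card = 2 := by omega
  · exact key 0 1 (by rw [hc, h]; norm_num)
  · exact key 0 1 (by rw [hc, h]; norm_num)
  · obtain ⟨a, b, hab, rfl⟩ := card_eq_two.1 h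
    obtain ⟨i, hi⟩ := Function.ne_iff.1 hab
    refine key (Pi.single i 1) 0 ?_
    rw [W, prod_pair hab, aff, aff]
    simp only [single_dotProduct, one_mul, add_zero]
    rcases zmod_two_cases (a i) with ha | ha <;> rcases zmod_two_cases (b i) with hb | hb
    · exact absurd (ha.trans hb.symm) hi
    · rw [ha, hb, sg_zero, sg_one]; norm_num
    · rw [ha, hb, sg_zero, sg_one]; norm_num
    · exact absurd (ha.trans hb.symm) hi

theorem mean_shift (g : Cu n → ℝ) (z : Cu n) : mean (fun x => g (x + z)) = mean g :=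
  mean_equiv (Equiv.addRight z) g

theorem noiseGame_gap (hq : 0 < q) (hm : 2 * m ≤ q) :
    (noiseGame n q m).SecondEigenvalueLE ((1 - 2 * (m : ℝ) / q) ^ 4) := by
  classical
  have : NeZero q := ⟨hq.ne'⟩
  have hmq : m ≤ q := by omega
  set ρ : ℝ := 1 - 2 * (m : ℝ) / q with hρ
  have hq' : (0 : ℝ) < q := by exact_mod_cast hq
  have hρ0 : 0 ≤ ρ := by
    rw [hρ, sub_nonneg, div_le_one hq']
    exact_mod_cast hm
  have hρ1 : ρ ≤ 1 := by
    rw [hρ]
    have : (0 : ℝ) ≤ 2 * (m : ℝ) / q := by positivity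
    linarith
  intro f g hf hg
  have hcard : (0 : ℝ) < (Fintype.card (Cu n × (Pt n → Fin q)) : ℝ) := by
    exact_mod_cast Fintype.card_pos
  set F : Cu n → ℝ := fun x => f (nrm x) with hF
  set G : Cu n → ℝ := fun x => g (nrm x) with hG
  have hFinv : ∀ x γ ε, F (x + aff γ ε) = F x := fun x γ ε => by rw [hF]; simp only [nrm_add_aff]
  have hGinv : ∀ x γ ε, G (x + aff γ ε) = G x := fun x γ ε => by rw [hG]; simp only [nrm_add_aff]
  have e1 : (∑ e, f ((noiseGame n q m).src e)) / (Fintype.card (Cu n × (Pt n → Fin q)) : ℝ) =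
      mean F := by
    rw [mean_edge]
    refine mean_congr fun x => ?_
    exact mean_const (F x)
  have e2 : (∑ e, g ((noiseGame n q m).dst e)) / (Fintype.card (Cu n × (Pt n → Fin q)) : ℝ) =
      mean G := by
    rw [mean_edge, mean_comm]
    have h0 : ∀ r : Pt n → Fin q, mean (fun x => g ((noiseGame n q m).dst (x, r))) = mean G :=
      fun r => mean_shift G (nz m r)
    rw [mean_congr h0, mean_const]
  have e3 : (∑ e, f ((noiseGame n q m).src e) ^ 2) /
      (Fintype.card (Cu n × (Pt n → Fin q)) : ℝ) = mean (fun x => F x ^ 2) := by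
    rw [mean_edge]
    refine mean_congr fun x => ?_
    exact mean_const (F x ^ 2)
  have e4 : (∑ e, g ((noiseGame n q m).dst e) ^ 2) /
      (Fintype.card (Cu n × (Pt n → Fin q)) : ℝ) = mean (fun x => G x ^ 2) := by
    rw [mean_edge, mean_comm]
    have h0 : ∀ r : Pt n → Fin q, mean (fun x => g ((noiseGame n q m).dst (x, r)) ^ 2) =
        mean (fun x => G x ^ 2) := fun r => mean_shift (fun x => G x ^ 2) (nz m r)
    rw [mean_congr h0, mean_const]
  have e5 : (∑ e, f ((noiseGame n q m).src e) * g ((noiseGame n q m).dst e)) /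
      (Fintype.card (Cu n × (Pt n → Fin q)) : ℝ) =
      ∑ S, ρ ^ S.card * (hat F S * hat G S) := by
    rw [mean_edge]
    exact noise hq hmq F G
  have hF0 : hat F ∅ = 0 := by
    rw [hf, zero_div] at e1
    rw [hat, e1]
    exact mean_congr fun x => by rw [W_empty, mul_one]
  have hG0 : hat G ∅ = 0 := by
    rw [hg, zero_div] at e2
    rw [hat, e2]
    exact mean_congr fun x => by rw [W_empty, mul_one]
  have h1 : ∑ S, ρ ^ S.card * (hat F S * hat G S) ≤
      ∑ S, ρ ^ 4 * ((hat F S ^ 2 + hat G S ^ 2) / 2) := by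
    refine sum_le_sum fun S _ => ?_
    by_cases hS : S = ∅
    · rw [hS, hF0, hG0]
      simp
    by_cases hS' : S.card < 4
    · rw [hat_invariant hFinv hS hS']
      have : 0 ≤ ρ ^ 4 := by positivity
      have h2 : (0 : ℝ) ≤ hat G S ^ 2 := sq_nonneg _
      rw [zero_mul, mul_zero]
      positivity
    · have h2 : ρ ^ S.card ≤ ρ ^ 4 := pow_le_pow_of_le_one hρ0 hρ1 (by omega)
      have h3 : 0 ≤ ρ ^ S.card := by positivity
      have h4 : hat F S * hat G S ≤ (hat F S ^ 2 + hat G S ^ 2) / 2 := by
        nlinarith [sq_nonneg (hat F S - hat G S)]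
      calc ρ ^ S.card * (hat F S * hat G S) ≤ ρ ^ S.card * ((hat F S ^ 2 + hat G S ^ 2) / 2) :=
            mul_le_mul_of_nonneg_left h4 h3
        _ ≤ ρ ^ 4 * ((hat F S ^ 2 + hat G S ^ 2) / 2) :=
            mul_le_mul_of_nonneg_right h2 (by positivity)
  rw [← mul_sum, ← sum_div, sum_add_distrib, ← parseval, ← parseval, ← e3, ← e4, ← e5,
    div_le_iff₀ hcard] at h1
  refine h1.trans (le_of_eq ?_)
  field_simp

theorem mean_level (φ : Cu n → Pt n) (hφ : ∀ v δ, φ (v + aff δ 0) = φ v + δ) (γ : Pt n) :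
    mean (fun v => if φ v = γ then (1 : ℝ) else 0) = ((2 : ℝ) ^ n)⁻¹ := by
  classical
  have h1 : ∀ γ', mean (fun v => if φ v = γ' then (1 : ℝ) else 0) =
      mean (fun v => if φ v = γ then (1 : ℝ) else 0) := by
    intro γ'
    rw [← mean_shift (fun v => if φ v = γ' then (1 : ℝ) else 0) (aff (γ + γ') 0)]
    refine mean_congr fun v => ?_
    rw [hφ]
    have h2 : φ v + (γ + γ') = γ' ↔ φ v = γ := by
      constructor
      · intro h
        calc φ v = (φ v + (γ + γ')) + (γ + γ') := by
              rw [add_assoc, pt_add_self, add_zero]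
          _ = γ := by rw [h, add_comm γ, ← add_assoc, pt_add_self, zero_add]
      · intro h
        rw [h, ← add_assoc, pt_add_self, zero_add]
    simp only [h2]
  have h2 : ∑ γ', mean (fun v => if φ v = γ' then (1 : ℝ) else 0) = 1 := by
    rw [← mean_sum]
    have : ∀ v, ∑ γ', (if φ v = γ' then (1 : ℝ) else 0) = 1 := by
      intro v
      simp
    rw [mean_congr this, mean_const]
  rw [sum_congr rfl fun γ' _ => h1 γ', sum_const, card_univ, Fintype.card_fun, ZMod.card,
    Fintype.card_fin, nsmul_eq_mul] at h2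
  push_cast at h2
  exact eq_inv_of_mul_eq_one_right h2

theorem noiseGame_value (hq : 0 < q) (hm : 2 * m ≤ q) {k : ℕ}
    (hk : (1 - 2 * (m : ℝ) / q) ^ k ≤ 1 / 3) {δ : ℝ} (hδ : 0 ≤ δ)
    (hn : ((2 : ℝ) ^ n)⁻¹ ≤ δ ^ (2 * k)) : (noiseGame n q m).value ≤ δ := by
  classical
  have : NeZero q := ⟨hq.ne'⟩
  have hmq : m ≤ q := by omega
  set ρ : ℝ := 1 - 2 * (m : ℝ) / q with hρ
  have hq' : (0 : ℝ) < q := by exact_mod_cast hq
  have hρ0 : 0 ≤ ρ := by
    rw [hρ, sub_nonneg, div_le_one hq']
    exact_mod_cast hm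
  have hk0 : k ≠ 0 := by
    rintro rfl
    norm_num at hk
  refine value_le _ fun x y => ?_
  set φ : Cu n → Pt n := fun v => x (nrm v) + lab v with hφdef
  set ψ : Cu n → Pt n := fun v => y (nrm v) + lab v with hψdef
  have hφ : ∀ v δ, φ (v + aff δ 0) = φ v + δ := fun v δ => by
    simp only [hφdef, nrm_add_aff, lab_add, lab_aff, add_assoc]
  have hψ : ∀ v δ, ψ (v + aff δ 0) = ψ v + δ := fun v δ => by
    simp only [hψdef, nrm_add_aff, lab_add, lab_aff, add_assoc]
  set f : Pt n → Cu n → ℝ := fun γ v => if φ v = γ then (1 : ℝ) else 0 with hf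
  set g : Pt n → Cu n → ℝ := fun γ v => if ψ v = γ then (1 : ℝ) else 0 with hg
  have hsat : (noiseGame n q m).satFrac x y =
      ∑ γ, ∑ S, ρ ^ S.card * (hat (f γ) S * hat (g γ) S) := by
    have e1 : (noiseGame n q m).satFrac x y = (∑ e : Cu n × (Pt n → Fin q),
        (if (noiseGame n q m).perm e (x ((noiseGame n q m).src e)) =
          y ((noiseGame n q m).dst e) then (1 : ℝ) else 0)) /
        (Fintype.card (Cu n × (Pt n → Fin q)) : ℝ) := by
      rw [Game.satFrac, sum_boole]
      congr!
    have e2 : ∀ (v : Cu n) (r : Pt n → Fin q),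
        (if (noiseGame n q m).perm (v, r) (x ((noiseGame n q m).src (v, r))) =
          y ((noiseGame n q m).dst (v, r)) then (1 : ℝ) else 0) =
        ∑ γ, f γ v * g γ (v + nz m r) := by
      intro v r
      have e3 : ((noiseGame n q m).perm (v, r) (x ((noiseGame n q m).src (v, r))) =
          y ((noiseGame n q m).dst (v, r))) ↔ ψ (v + nz m r) = φ v := by
        simp only [noiseGame, Equiv.coe_addRight, hφdef, hψdef]
        constructor
        · intro h
          rw [← h]
          calc x (nrm v) + (lab (v + nz m r) + lab v) + lab (v + nz m r)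
              = x (nrm v) + lab v + (lab (v + nz m r) + lab (v + nz m r)) := by abel
            _ = _ := by rw [pt_add_self, add_zero]
        · intro h
          calc x (nrm v) + (lab (v + nz m r) + lab v)
              = (x (nrm v) + lab v) + lab (v + nz m r) := by abel
            _ = y (nrm (v + nz m r)) + (lab (v + nz m r) + lab (v + nz m r)) := by
                rw [← h]
                abel
            _ = _ := by rw [pt_add_self, add_zero]
      simp only [e3, hf, hg]
      rw [sum_eq_single (φ v)]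
      · simp
      · intro γ _ hγ
        rw [if_neg (Ne.symm hγ), zero_mul]
      · intro h
        exact absurd (mem_univ _) h
    rw [e1, mean_edge, mean_congr fun v => mean_congr fun r => e2 v r]
    simp only [mean_sum]
    exact sum_congr rfl fun γ _ => noise hq hmq (f γ) (g γ)
  have h01 : ∀ γ v, f γ v = 0 ∨ f γ v = 1 := by
    intro γ v
    simp only [hf]
    split_ifs
    · exact Or.inr rfl
    · exact Or.inl rfl
  have h01' : ∀ γ v, g γ v = 0 ∨ g γ v = 1 := by
    intro γ v
    simp only [hg]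
    split_ifs
    · exact Or.inr rfl
    · exact Or.inl rfl
  have hN : (0 : ℝ) < 2 ^ n := by positivity
  have hstab : ∀ u : Cu n → ℝ, (∀ v, u v = 0 ∨ u v = 1) → mean u = ((2 : ℝ) ^ n)⁻¹ →
      ∑ S, ρ ^ S.card * hat u S ^ 2 ≤ δ / 2 ^ n := by
    intro u hu hmean
    have h1 := small_set hu hρ0 hk
    rw [hmean] at h1
    have h2 : (∑ S, ρ ^ S.card * hat u S ^ 2) ^ (2 * k) ≤ (δ / 2 ^ n) ^ (2 * k) := by
      refine h1.trans ?_
      rw [div_pow, div_eq_inv_mul, inv_pow]
      exact mul_le_mul_of_nonneg_left hn (by positivity)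
    exact le_of_pow_le_pow_left₀ (by omega) (by positivity) h2
  rw [hsat]
  calc ∑ γ, ∑ S, ρ ^ S.card * (hat (f γ) S * hat (g γ) S)
      ≤ ∑ γ : Pt n, (∑ S, ρ ^ S.card * hat (f γ) S ^ 2 + ∑ S, ρ ^ S.card * hat (g γ) S ^ 2) / 2 := by
        refine sum_le_sum fun γ _ => ?_
        rw [← sum_add_distrib, sum_div]
        refine sum_le_sum fun S _ => ?_
        have h3 : 0 ≤ ρ ^ S.card := by positivity
        have h4 : hat (f γ) S * hat (g γ) S ≤ (hat (f γ) S ^ 2 + hat (g γ) S ^ 2) / 2 := by
          nlinarith [sq_nonneg (hat (f γ) S - hat (g γ) S)]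
        calc ρ ^ S.card * (hat (f γ) S * hat (g γ) S)
            ≤ ρ ^ S.card * ((hat (f γ) S ^ 2 + hat (g γ) S ^ 2) / 2) :=
              mul_le_mul_of_nonneg_left h4 h3
          _ = _ := by ring
    _ ≤ ∑ _γ : Pt n, δ / 2 ^ n := by
        refine sum_le_sum fun γ _ => ?_
        have h5 := hstab (f γ) (h01 γ) (mean_level φ hφ γ)
        have h6 := hstab (g γ) (h01' γ) (mean_level ψ hψ γ)
        linarith
    _ = δ := by
        rw [sum_const, card_univ, Fintype.card_fun, ZMod.card, Fintype.card_fin, nsmul_eq_mul]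
        push_cast
        field_simp

end game

end Pool.Agent.Lib.P325x
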