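import Pool.Agent.Lib.P325x.Round

/-!
The overlay of a game with the complete game.
-/

open scoped BigOperators
open Finset

namespace Pool.Agent.Lib.P325x

theorem card_perm_fiber {Ω : Type*} [Fintype Ω] [DecidableEq Ω] (x y : Ω) :
    (Fintype.card Ω : ℝ) * ∑ σ : Equiv.Perm Ω, (if σ x = y then (1 : ℝ) else 0) =
      Fintype.card (Equiv.Perm Ω) := by
  have h1 : ∀ y' : Ω, ∑ σ : Equiv.Perm Ω, (if σ x = y' then (1 : ℝ) else 0) =
      ∑ σ : Equiv.Perm Ω, (if σ x = y then (1 : ℝ) else 0) := by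
    intro y'
    rw [← Equiv.sum_comp (Equiv.mulLeft (Equiv.swap y y'))]
    refine sum_congr rfl fun σ _ => ?_
    have : (Equiv.mulLeft (Equiv.swap y y')) σ x = y' ↔ σ x = y := by
      rw [Equiv.coe_mulLeft, Equiv.Perm.mul_apply]
      constructor
      · intro h
        have := congrArg (Equiv.swap y y') h
        rwa [Equiv.swap_apply_self, Equiv.swap_apply_right] at this
      · intro h
        rw [h, Equiv.swap_apply_left]
    simp only [this]
  have h2 : ∑ y' : Ω, ∑ σ : Equiv.Perm Ω, (if σ x = y' then (1 : ℝ) else 0) =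
      Fintype.card (Equiv.Perm Ω) := by
    rw [sum_comm]
    simp
  rw [sum_congr rfl fun y' _ => h1 y', sum_const, card_univ, nsmul_eq_mul] at h2
  exact h2

variable {U W Ω ι : Type} [Fintype Ω] [Fintype ι] (I : Game U W Ω ι)

theorem overlay_sum [DecidableEq Ω] (a b : ℕ) (F : U → W → Equiv.Perm Ω → ℝ) :
    ∑ t, F ((I.overlay a b).src t) ((I.overlay a b).dst t) ((I.overlay a b).perm t) =
      a * (Fintype.card ι * (Fintype.card (Equiv.Perm Ω) *
        ∑ e, F (I.src e) (I.dst e) (I.perm e))) +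
      b * ∑ e, ∑ e', ∑ σ, F (I.src e) (I.dst e') σ := by
  rw [Fintype.sum_prod_type, Fintype.sum_sum_type]
  congr 1
  · have : ∀ i : Fin a, ∑ y : ι × ι × Equiv.Perm Ω, F ((I.overlay a b).src (Sum.inl i, y))
        ((I.overlay a b).dst (Sum.inl i, y)) ((I.overlay a b).perm (Sum.inl i, y)) =
        Fintype.card ι * (Fintype.card (Equiv.Perm Ω) * ∑ e, F (I.src e) (I.dst e) (I.perm e)) := by
      intro i
      rw [Fintype.sum_prod_type]
      calc ∑ e : ι, ∑ y : ι × Equiv.Perm Ω, F ((I.overlay a b).src (Sum.inl i, e, y))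
            ((I.overlay a b).dst (Sum.inl i, e, y)) ((I.overlay a b).perm (Sum.inl i, e, y))
          = ∑ e : ι, ∑ _y : ι × Equiv.Perm Ω, F (I.src e) (I.dst e) (I.perm e) := rfl
        _ = _ := by
            simp only [sum_const, card_univ, Fintype.card_prod, nsmul_eq_mul]
            rw [← mul_sum]
            push_cast
            ring
    rw [sum_congr rfl fun i _ => this i, sum_const, card_univ, Fintype.card_fin, nsmul_eq_mul]
  · have : ∀ i : Fin b, ∑ y : ι × ι × Equiv.Perm Ω, F ((I.overlay a b).src (Sum.inr i, y))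
        ((I.overlay a b).dst (Sum.inr i, y)) ((I.overlay a b).perm (Sum.inr i, y)) =
        ∑ e, ∑ e', ∑ σ, F (I.src e) (I.dst e') σ := by
      intro i
      rw [Fintype.sum_prod_type]
      refine sum_congr rfl fun e _ => ?_
      rw [Fintype.sum_prod_type]
      rfl
    rw [sum_congr rfl fun i _ => this i, sum_const, card_univ, Fintype.card_fin, nsmul_eq_mul]

theorem overlay_card [DecidableEq Ω] (a b : ℕ) :
    (Fintype.card ((Fin a ⊕ Fin b) × (ι × ι × Equiv.Perm Ω)) : ℝ) =
      (a + b) * (Fintype.card ι * (Fintype.card ι * Fintype.card (Equiv.Perm Ω))) := by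
  simp only [Fintype.card_prod, Fintype.card_sum, Fintype.card_fin]
  push_cast
  ring

theorem overlay_satFrac [DecidableEq Ω] [Nonempty ι] {a b : ℕ} (hab : 0 < a + b)
    (x : U → Ω) (y : W → Ω) :
    (I.overlay a b).satFrac x y =
      ((a : ℝ) * I.satFrac x y + b / Fintype.card Ω) / (a + b) := by
  obtain ⟨e0⟩ := id (inferInstance : Nonempty ι)
  have hΩ : Nonempty Ω := ⟨x (I.src e0)⟩
  have hι : (0 : ℝ) < Fintype.card ι := by exact_mod_cast Fintype.card_pos
  have hc : (0 : ℝ) < Fintype.card Ω := by exact_mod_cast Fintype.card_pos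
  have hp : (0 : ℝ) < Fintype.card (Equiv.Perm Ω) := by exact_mod_cast Fintype.card_pos
  have hab' : (0 : ℝ) < (a : ℝ) + b := by exact_mod_cast hab
  have e1 : (I.overlay a b).satFrac x y =
      (∑ t, if (I.overlay a b).perm t (x ((I.overlay a b).src t)) = y ((I.overlay a b).dst t)
        then (1 : ℝ) else 0) / (Fintype.card ((Fin a ⊕ Fin b) × (ι × ι × Equiv.Perm Ω)) : ℝ) := by
    rw [Game.satFrac, sum_boole]
    congr!
  have e2 : I.satFrac x y = (∑ e, if I.perm e (x (I.src e)) = y (I.dst e)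
        then (1 : ℝ) else 0) / (Fintype.card ι : ℝ) := by
    rw [Game.satFrac, sum_boole]
    congr!
  have e3 := overlay_sum I a b (fun u w π => if π (x u) = y w then (1 : ℝ) else 0)
  have e4 : ∀ u w, ∑ σ : Equiv.Perm Ω, (if σ (x u) = y w then (1 : ℝ) else 0) =
      Fintype.card (Equiv.Perm Ω) / Fintype.card Ω := by
    intro u w
    rw [eq_div_iff hc.ne', mul_comm]
    exact card_perm_fiber (x u) (y w)
  simp only [e4, sum_const, card_univ, nsmul_eq_mul] at e3
  rw [e1, e2, e3, overlay_card]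
  field_simp

theorem overlay_value [DecidableEq Ω] [Nonempty ι] [Nonempty Ω] {a b : ℕ} (hab : 0 < a + b) :
    (I.overlay a b).value = ((a : ℝ) * I.value + b / Fintype.card Ω) / (a + b) := by
  have hab' : (0 : ℝ) < (a : ℝ) + b := by exact_mod_cast hab
  have ha : (0 : ℝ) ≤ a := Nat.cast_nonneg a
  refine le_antisymm (value_le _ fun x y => ?_) ?_
  · rw [overlay_satFrac I hab]
    have := mul_le_mul_of_nonneg_left (satFrac_le_value I x y) ha
    gcongr
  · rw [div_le_iff₀ hab']
    rcases ha.eq_or_lt with h0 | h0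
    · have h1 := satFrac_le_value (I.overlay a b) (fun _ => Classical.arbitrary Ω)
        (fun _ => Classical.arbitrary Ω)
      rw [overlay_satFrac I hab, div_le_iff₀ hab'] at h1
      rw [← h0, zero_mul] at h1 ⊢
      exact h1
    · have h2 : I.value ≤ ((I.overlay a b).value * (a + b) - b / Fintype.card Ω) / a := by
        refine value_le _ fun x y => ?_
        rw [le_div_iff₀ h0]
        have h1 := satFrac_le_value (I.overlay a b) x y
        rw [overlay_satFrac I hab, div_le_iff₀ hab'] at h1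
        linarith
      rw [le_div_iff₀ h0] at h2
      linarith

theorem overlay_gap [DecidableEq Ω] [Nonempty ι] {a b : ℕ} (hab : 0 < a + b) :
    (I.overlay a b).SecondEigenvalueLE ((a : ℝ) / (a + b)) := by
  intro f g hf hg
  have hι : (0 : ℝ) < Fintype.card ι := by exact_mod_cast Fintype.card_pos
  have hp : (0 : ℝ) < Fintype.card (Equiv.Perm Ω) := by exact_mod_cast Fintype.card_pos
  have hab' : (0 : ℝ) < (a : ℝ) + b := by exact_mod_cast hab
  have e1 := overlay_sum I a b (fun u _ _ => f u)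
  have e2 := overlay_sum I a b (fun _ w _ => g w)
  have e3 := overlay_sum I a b (fun u w _ => f u * g w)
  have e4 := overlay_sum I a b (fun u _ _ => f u ^ 2)
  have e5 := overlay_sum I a b (fun _ w _ => g w ^ 2)
  rw [hf] at e1
  rw [e3, e4, e5]
  simp only [sum_const, card_univ, nsmul_eq_mul, ← mul_sum, ← sum_mul] at e1 ⊢
  set N : ℝ := (Fintype.card ι : ℝ) with hN
  set M : ℝ := (Fintype.card (Equiv.Perm Ω) : ℝ) with hM
  have hf0 : ∑ e, f (I.src e) = 0 := by
    have : (N * M * ((a : ℝ) + b)) * ∑ e, f (I.src e) = 0 := by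
      rw [e1]
      ring
    exact (mul_eq_zero.1 this).resolve_left (by positivity)
  have h1 : ∑ e, f (I.src e) * g (I.dst e) ≤
      (∑ e, f (I.src e) ^ 2 + ∑ e, g (I.dst e) ^ 2) / 2 := by
    rw [← sum_add_distrib, sum_div]
    exact sum_le_sum fun e _ => by nlinarith [sq_nonneg (f (I.src e) - g (I.dst e))]
  rw [hf0]
  have h2 : (a : ℝ) * (N * (M * ∑ e, f (I.src e) * g (I.dst e))) ≤
      a * (N * (M * ((∑ e, f (I.src e) ^ 2 + ∑ e, g (I.dst e) ^ 2) / 2))) := by
    gcongr
  refine le_trans (le_of_eq ?_) (h2.trans (le_of_eq ?_))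
  · ring
  · field_simp

end Pool.Agent.Lib.P325x
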