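import Pool.Agent.Lib.P325x.Tensor
import Pool.Agent.Lib.P325x.KV
import Pool.Agent.Lib.P325x.Overlay

/-!
The choice of the parameters of the noise games and the two sides of the threshold.
-/

open scoped BigOperators
open Finset

namespace Pool.Agent.Lib.P325x

theorem exists_params {μ s δ : ℝ} (hμ : μ < 1) (hs : 0 < s) (hsμ : s ^ 2 ≤ μ) (hδ : 0 < δ) :
    ∃ n q m k : ℕ, 0 < q ∧ 2 * m ≤ q ∧ (1 - 2 * (m : ℝ) / q) ^ 4 ≤ μ ∧
      (1 - 2 * (m : ℝ) / q) ^ k ≤ 1 / 3 ∧ ((2 : ℝ) ^ n)⁻¹ ≤ δ ^ (2 * k) ∧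
      s ≤ (1 - 2 * (m : ℝ) / q) ^ 2 + (1 - (1 - 2 * (m : ℝ) / q) ^ 2) / 2 ^ n := by
  have hμ0 : 0 < μ := lt_of_lt_of_le (by positivity) hsμ
  set t : ℝ := √(√μ) with ht
  have hr0 : 0 < √μ := Real.sqrt_pos.2 hμ0
  have ht0 : 0 < t := Real.sqrt_pos.2 hr0
  have ht2 : t ^ 2 = √μ := Real.sq_sqrt hr0.le
  have ht4 : t ^ 4 = μ := by
    calc t ^ 4 = (t ^ 2) ^ 2 := by ring
      _ = μ := by rw [ht2, Real.sq_sqrt hμ0.le]
  have ht1 : t < 1 := by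
    by_contra h
    push Not at h
    have : (1 : ℝ) ≤ t ^ 4 := one_le_pow₀ h
    linarith
  have hst : s ≤ t ^ 2 := by
    rw [ht2]
    exact Real.le_sqrt_of_sq_le hsμ
  obtain ⟨k, hk⟩ := exists_pow_lt_of_lt_one (show (0 : ℝ) < 1 / 3 by norm_num) ht1
  obtain ⟨n, hn⟩ := exists_pow_lt_of_lt_one (show (0 : ℝ) < δ ^ (2 * k) by positivity)
    (show (1 / 2 : ℝ) < 1 by norm_num)
  have hN : (0 : ℝ) < 2 ^ n := by positivity
  set c : ℝ := (1 - t ^ 2) / 2 ^ n with hc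
  have hc0 : 0 < c := by
    have : t ^ 2 < 1 := pow_lt_one₀ ht0.le ht1 two_ne_zero
    have h2 : 0 < 1 - t ^ 2 := by linarith
    positivity
  obtain ⟨ρ, hρ1, hρ2⟩ := exists_rat_btwn (show max 0 (t - c / 2) < t from
    max_lt ht0 (by linarith))
  have hρ0 : (0 : ℝ) < ρ := lt_of_le_of_lt (le_max_left _ _) hρ1
  have hρc : t - c / 2 < ρ := lt_of_le_of_lt (le_max_right _ _) hρ1
  have hρlt : (ρ : ℝ) < 1 := hρ2.trans ht1
  have hnum0 : 0 < ρ.num := Rat.num_pos.2 (by exact_mod_cast hρ0)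
  have hden : 0 < ρ.den := ρ.den_pos
  have hnumlt : ρ.num < ρ.den := by
    have h1 : ρ < 1 := by exact_mod_cast hρlt
    exact Rat.num_lt_denom_iff.2 h1
  obtain ⟨a, ha⟩ := Int.eq_ofNat_of_zero_le hnum0.le
  have hab : a ≤ ρ.den := by
    rw [ha] at hnumlt
    exact_mod_cast hnumlt.le
  have hρeq : (ρ : ℝ) = (a : ℝ) / ρ.den := by
    rw [Rat.cast_def ρ, ha]
    push_cast
    rfl
  have key : (1 - 2 * ((ρ.den - a : ℕ) : ℝ) / ((2 * ρ.den : ℕ) : ℝ)) = (ρ : ℝ) := by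
    have hd : (0 : ℝ) < ρ.den := by exact_mod_cast hden
    rw [hρeq, Nat.cast_sub hab]
    push_cast
    field_simp
    ring
  refine ⟨n, 2 * ρ.den, ρ.den - a, k, by omega, by omega, ?_, ?_, ?_, ?_⟩
  · rw [key, ← ht4]
    exact pow_le_pow_left₀ hρ0.le hρ2.le 4
  · rw [key]
    exact (pow_le_pow_left₀ hρ0.le hρ2.le k).trans hk.le
  · rw [← inv_pow, inv_eq_one_div]
    exact hn.le
  · rw [key]
    have h1 : t ^ 2 - c ≤ (ρ : ℝ) ^ 2 := by nlinarith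
    have h2 : c ≤ (1 - (ρ : ℝ) ^ 2) / 2 ^ n := by
      rw [hc]
      have h3 : (ρ : ℝ) ^ 2 ≤ t ^ 2 := pow_le_pow_left₀ hρ0.le hρ2.le 2
      gcongr
    linarith

theorem gap_instances {μ s δ : ℝ} (hμ : μ < 1) (hs : 0 < s) (hsμ : s ^ 2 ≤ μ) (hδ : 0 < δ) :
    ∃ n q m : ℕ, (noiseGame n q m).SecondEigenvalueLE μ ∧
      s ≤ (noiseGame n q m).sdpObjective (sol (n := n)) ∧ (noiseGame n q m).value ≤ δ := by
  obtain ⟨n, q, m, k, hq, hm, h4, hk, hn, hobj⟩ := exists_params hμ hs hsμ hδ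
  refine ⟨n, q, m, ?_, ?_, noiseGame_value hq hm hk hδ.le hn⟩
  · intro f g hf hg
    refine (noiseGame_gap hq hm f g hf hg).trans (mul_le_mul_of_nonneg_right h4 ?_)
    have h1 : 0 ≤ ∑ e, f ((noiseGame n q m).src e) ^ 2 := sum_nonneg fun e _ => sq_nonneg _
    have h2 : 0 ≤ ∑ e, g ((noiseGame n q m).dst e) ^ 2 := sum_nonneg fun e _ => sq_nonneg _
    positivity
  · rw [noiseGame_objective hq (by omega)]
    exact hobj

theorem uniform_bound {μ s : ℝ} (hμ : 0 ≤ μ) (hs : 0 < s) (h : μ < s ^ 2) :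
    ∃ δ : ℝ, 0 < δ ∧ ∀ (U W Ω ι κ : Type) [Fintype Ω] [Fintype ι] [Fintype κ]
      (I : Game U W Ω ι) (X : U ⊕ W → Ω → EuclideanSpace ℝ κ), I.SecondEigenvalueLE μ →
      IsSDPSolution X → s ≤ I.sdpObjective X → δ ≤ I.value := by
  obtain ⟨k, hk⟩ := exists_nat_gt (1 / (s ^ 2 - μ))
  have hd : 0 < s ^ 2 - μ := by linarith
  have hk0 : (0 : ℝ) < 2 * k + 1 := by positivity
  have h1 : μ + 2 / (2 * (k : ℝ) + 1) < s ^ 2 := by
    rw [div_lt_iff₀ hd] at hk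
    have h2 : 2 / (2 * (k : ℝ) + 1) < s ^ 2 - μ := by
      rw [div_lt_iff₀ hk0]
      nlinarith
    linarith
  have h2 : √(μ + 2 / (2 * (k : ℝ) + 1)) < s := by
    rw [Real.sqrt_lt' hs]
    exact h1
  refine ⟨(s - √(μ + 2 / (2 * (k : ℝ) + 1))) / 4 ^ k, by
    have : 0 < s - √(μ + 2 / (2 * (k : ℝ) + 1)) := by linarith
    positivity, ?_⟩
  intro U W Ω ι κ _ _ _ I X hI hX hobj
  have h3 := explicit_bound I hμ hI hX k
  rw [div_le_iff₀ (by positivity)]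
  linarith

end Pool.Agent.Lib.P325x
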