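import Pool.Agent.Lib.P325x.Defs

/-!
The average of the orthogonal projections onto the spans of orthogonal families.
-/

open scoped BigOperators
open Finset

namespace Pool.Agent.Lib.P325x

section oneFamily

variable {H : Type*} [NormedAddCommGroup H] [InnerProductSpace ℝ H] {Ω : Type*} [Fintype Ω]

/-- projection onto the span of an orthogonal family -/
noncomputable def proj (x : Ω → H) : H →ₗ[ℝ] H :=
  ∑ i, ((‖x i‖ ^ 2)⁻¹ : ℝ) • ((innerₗ H (x i)).smulRight (x i))

theorem proj_apply (x : Ω → H) (y : H) :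
    proj x y = ∑ i, ((‖x i‖ ^ 2)⁻¹ * inner ℝ (x i) y) • x i := by
  simp [proj, smul_smul]

/-- squared norm of the projection -/
noncomputable def en (x : Ω → H) (y : H) : ℝ := ∑ i, inner ℝ (x i) y ^ 2 / ‖x i‖ ^ 2

theorem inner_proj (x : Ω → H) (y z : H) :
    inner ℝ y (proj x z) = ∑ i, (‖x i‖ ^ 2)⁻¹ * inner ℝ (x i) z * inner ℝ (x i) y := by
  rw [proj_apply, inner_sum]
  refine sum_congr rfl fun i _ => ?_
  rw [inner_smul_right, real_inner_comm (x i) y]

theorem inner_proj_self (x : Ω → H) (y : H) : inner ℝ y (proj x y) = en x y := by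
  rw [inner_proj, en]
  refine sum_congr rfl fun i _ => ?_
  rw [div_eq_inv_mul]
  ring

theorem inner_proj_comm (x : Ω → H) (y z : H) :
    inner ℝ y (proj x z) = inner ℝ (proj x y) z := by
  rw [inner_proj, real_inner_comm, inner_proj]
  exact sum_congr rfl fun i _ => by ring

variable {x : Ω → H} (hx : ∀ i j, i ≠ j → inner ℝ (x i) (x j) = 0)

include hx in
theorem inner_x_proj (i : Ω) (y : H) : inner ℝ (x i) (proj x y) = inner ℝ (x i) y := by
  classical
  rw [inner_proj, sum_eq_single i]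
  · rw [real_inner_self_eq_norm_sq]
    by_cases h : x i = 0
    · simp [h]
    · have : ‖x i‖ ^ 2 ≠ 0 := pow_ne_zero _ (norm_ne_zero_iff.2 h)
      field_simp
  · intro j _ hj
    rw [hx j i hj, mul_zero]
  · intro h
    exact absurd (mem_univ i) h

include hx in
theorem norm_proj_sq (y : H) : ‖proj x y‖ ^ 2 = en x y := by
  rw [← real_inner_self_eq_norm_sq, ← inner_proj_comm, inner_proj, en]
  refine sum_congr rfl fun i _ => ?_
  rw [inner_x_proj hx, div_eq_inv_mul]
  ring

theorem en_nonneg (x : Ω → H) (y : H) : 0 ≤ en x y := sum_nonneg fun i _ => by positivity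

include hx in
theorem en_le (y : H) : en x y ≤ ‖y‖ ^ 2 := by
  have h1 : 0 ≤ ‖y - proj x y‖ ^ 2 := by positivity
  rw [norm_sub_sq_real, norm_proj_sq hx, inner_proj_self] at h1
  linarith

include hx in
theorem proj_sum {z : H} (hz : ∑ i, x i = z) : proj x z = z := by
  classical
  rw [proj_apply]
  conv_rhs => rw [← hz]
  refine sum_congr rfl fun i _ => ?_
  have h1 : inner ℝ (x i) z = ‖x i‖ ^ 2 := by
    rw [← hz, inner_sum, sum_eq_single i]
    · exact real_inner_self_eq_norm_sq _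
    · intro j _ hj
      exact hx i j (Ne.symm hj)
    · intro h
      exact absurd (mem_univ i) h
  rw [h1]
  by_cases h : x i = 0
  · simp [h]
  · have : ‖x i‖ ^ 2 ≠ 0 := pow_ne_zero _ (norm_ne_zero_iff.2 h)
    rw [inv_mul_cancel₀ this, one_smul]

end oneFamily

section average

variable {H : Type*} [NormedAddCommGroup H] [InnerProductSpace ℝ H] {Ω K : Type*} [Fintype Ω]
  [Fintype K] [Nonempty K]

/-- the average of the projections -/
noncomputable def avg (F : K → Ω → H) : H →ₗ[ℝ] H :=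
  ((Fintype.card K : ℝ)⁻¹) • ∑ k, proj (F k)

/-- average energy -/
noncomputable def Eav (F : K → Ω → H) (y : H) : ℝ := (Fintype.card K : ℝ)⁻¹ * ∑ k, en (F k) y

omit [Nonempty K] in
theorem inner_avg_self (F : K → Ω → H) (y : H) : inner ℝ y (avg F y) = Eav F y := by
  rw [avg, Eav, LinearMap.smul_apply, LinearMap.sum_apply, inner_smul_right, inner_sum]
  congr 1
  exact sum_congr rfl fun k _ => inner_proj_self _ _

omit [Nonempty K] in
theorem inner_avg (F : K → Ω → H) (y z : H) :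
    inner ℝ y (avg F z) = (Fintype.card K : ℝ)⁻¹ *
      ∑ k, ∑ i, (‖F k i‖ ^ 2)⁻¹ * inner ℝ (F k i) z * inner ℝ (F k i) y := by
  rw [avg, LinearMap.smul_apply, LinearMap.sum_apply, inner_smul_right, inner_sum]
  congr 1
  exact sum_congr rfl fun k _ => inner_proj _ _ _

omit [Nonempty K] in
theorem inner_avg_comm (F : K → Ω → H) (y z : H) :
    inner ℝ y (avg F z) = inner ℝ (avg F y) z := by
  rw [inner_avg, real_inner_comm, inner_avg]
  congr 1
  exact sum_congr rfl fun k _ => sum_congr rfl fun i _ => by ring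

omit [Nonempty K] in
theorem Eav_nonneg (F : K → Ω → H) (y : H) : 0 ≤ Eav F y :=
  mul_nonneg (by positivity) (sum_nonneg fun k _ => en_nonneg _ _)

variable {F : K → Ω → H} (hF : ∀ k i j, i ≠ j → inner ℝ (F k i) (F k j) = 0)

include hF in
theorem Eav_le (y : H) : Eav F y ≤ ‖y‖ ^ 2 := by
  have hK : (0 : ℝ) < Fintype.card K := by exact_mod_cast Fintype.card_pos
  rw [Eav, inv_mul_le_iff₀ hK]
  calc ∑ k, en (F k) y ≤ ∑ _k : K, ‖y‖ ^ 2 := sum_le_sum fun k _ => en_le (hF k) y
    _ = (Fintype.card K : ℝ) * ‖y‖ ^ 2 := by simp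

include hF in
theorem norm_avg_sq_le (y : H) : ‖avg F y‖ ^ 2 ≤ Eav F y := by
  have hK : (0 : ℝ) < Fintype.card K := by exact_mod_cast Fintype.card_pos
  have h1 : ∀ w : H, inner ℝ w (avg F y) =
      (Fintype.card K : ℝ)⁻¹ * ∑ k, inner ℝ w (proj (F k) y) := by
    intro w
    rw [avg, LinearMap.smul_apply, LinearMap.sum_apply, inner_smul_right, inner_sum]
  have h2 : ∀ k, inner ℝ (avg F y) (proj (F k) y) ≤
      (1 / 2) * en (F k) y + (1 / 2) * ‖avg F y‖ ^ 2 := by
    intro k
    have h3 := norm_sub_sq_real (avg F y) (proj (F k) y)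
    rw [norm_proj_sq (hF k)] at h3
    nlinarith [sq_nonneg ‖avg F y - proj (F k) y‖]
  have h4 : ‖avg F y‖ ^ 2 ≤ (Fintype.card K : ℝ)⁻¹ *
      ∑ k : K, ((1 / 2) * en (F k) y + (1 / 2) * ‖avg F y‖ ^ 2) :=
    calc ‖avg F y‖ ^ 2 = inner ℝ (avg F y) (avg F y) := (real_inner_self_eq_norm_sq _).symm
      _ = (Fintype.card K : ℝ)⁻¹ * ∑ k, inner ℝ (avg F y) (proj (F k) y) := h1 _
      _ ≤ _ := mul_le_mul_of_nonneg_left (sum_le_sum fun k _ => h2 k) (by positivity)
  rw [sum_add_distrib, ← mul_sum, sum_const, card_univ, nsmul_eq_mul, mul_add] at h4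
  have h5 : (Fintype.card K : ℝ)⁻¹ * ((Fintype.card K : ℝ) * ((1 / 2) * ‖avg F y‖ ^ 2)) =
      (1 / 2) * ‖avg F y‖ ^ 2 := by
    rw [← mul_assoc, inv_mul_cancel₀ hK.ne', one_mul]
  rw [h5] at h4
  rw [Eav]
  linarith

omit [Nonempty K] in
theorem avg_apply (F : K → Ω → H) (y : H) :
    avg F y = ((Fintype.card K : ℝ)⁻¹) • ∑ k, proj (F k) y := by
  rw [avg, LinearMap.smul_apply, LinearMap.sum_apply]

include hF in
theorem avg_fix {z : H} (hz : ∀ k, ∑ i, F k i = z) : avg F z = z := by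
  have hK : (0 : ℝ) < Fintype.card K := by exact_mod_cast Fintype.card_pos
  rw [avg_apply, sum_congr rfl fun k _ => proj_sum (hF k) (hz k), sum_const, card_univ,
    ← Nat.cast_smul_eq_nsmul ℝ, smul_smul, inv_mul_cancel₀ hK.ne', one_smul]

/-- `1 - avg` -/
noncomputable def dif (F : K → Ω → H) : H →ₗ[ℝ] H := LinearMap.id - avg F

omit [Nonempty K] in
theorem dif_apply (F : K → Ω → H) (y : H) : dif F y = y - avg F y := rfl

omit [Nonempty K] in
theorem inner_dif_comm (F : K → Ω → H) (y z : H) :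
    inner ℝ y (dif F z) = inner ℝ (dif F y) z := by
  rw [dif_apply, dif_apply, inner_sub_right, inner_sub_left, inner_avg_comm]

include hF in
theorem norm_dif_sq_le (y : H) : ‖dif F y‖ ^ 2 ≤ ‖y‖ ^ 2 - Eav F y := by
  have h1 := norm_avg_sq_le hF y
  rw [dif_apply, norm_sub_sq_real, inner_avg_self]
  linarith

include hF in
theorem Eav_dif_le (y : H) : Eav F (dif F y) ≤ Eav F y := by
  have h1 := Eav_le hF (avg F y)
  have h2 : Eav F (dif F y) = Eav F y - 2 * ‖avg F y‖ ^ 2 + Eav F (avg F y) := by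
    rw [← inner_avg_self, ← inner_avg_self F y, ← inner_avg_self F (avg F y), dif_apply, map_sub,
      inner_sub_left, inner_sub_right, inner_sub_right, inner_avg_comm F y (avg F y),
      real_inner_self_eq_norm_sq]
    ring
  have h3 : 0 ≤ ‖avg F y‖ ^ 2 := by positivity
  linarith

include hF in
theorem Eav_dif_pow (n : ℕ) (y : H) :
    ‖(dif F ^ (n + 1)) y‖ ^ 2 + (n + 1) * Eav F ((dif F ^ n) y) ≤ ‖y‖ ^ 2 := by
  induction n with
  | zero =>
    have := norm_dif_sq_le hF y
    simp only [zero_add, pow_one, pow_zero, Module.End.one_apply]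
    push_cast
    linarith
  | succ n ih =>
    have e1 : (dif F ^ (n + 1 + 1)) y = dif F ((dif F ^ (n + 1)) y) := by
      rw [pow_succ' _ (n + 1), Module.End.mul_apply]
    have e2 : (dif F ^ (n + 1)) y = dif F ((dif F ^ n) y) := by
      rw [pow_succ' _ n, Module.End.mul_apply]
    have h1 := norm_dif_sq_le hF ((dif F ^ (n + 1)) y)
    have h2 : Eav F ((dif F ^ (n + 1)) y) ≤ Eav F ((dif F ^ n) y) := by
      rw [e2]
      exact Eav_dif_le hF _
    rw [e1]
    have h3 : (0 : ℝ) ≤ n := Nat.cast_nonneg n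
    push_cast
    nlinarith

include hF in
theorem Eav_dif_pow_le (n : ℕ) (y : H) : Eav F ((dif F ^ n) y) ≤ ‖y‖ ^ 2 / (n + 1) := by
  have h1 := Eav_dif_pow hF n y
  have h3 : (0 : ℝ) < (n : ℝ) + 1 := by positivity
  rw [le_div_iff₀ h3]
  have h4 : 0 ≤ ‖(dif F ^ (n + 1)) y‖ ^ 2 := by positivity
  linarith

omit [Nonempty K] in
theorem inner_dif_pow_comm (F : K → Ω → H) (n : ℕ) (y z : H) :
    inner ℝ y ((dif F ^ n) z) = inner ℝ ((dif F ^ n) y) z := by
  induction n generalizing y z with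
  | zero => simp
  | succ n ih =>
    rw [pow_succ', Module.End.mul_apply, inner_dif_comm, ih, ← Module.End.mul_apply, ← pow_succ,
      pow_succ']

end average

end Pool.Agent.Lib.P325x
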