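import Pool.Agent.Lib.P325x.Bonami
import Pool.Agent.Lib.P325x.Defs

/-!
Affine functions on the small cube and the tensor squares of the sign vectors.
-/

open scoped BigOperators
open Finset

namespace Pool.Agent.Lib.P325x

section affine

variable {n : ℕ}

/-- points of the small cube -/
abbrev Pt (n : ℕ) : Type := Fin n → ZMod 2

/-- points of the large cube -/
abbrev Cu (n : ℕ) : Type := Pt n → ZMod 2

/-- affine functions -/
def aff (γ : Pt n) (ε : ZMod 2) : Cu n := fun a => γ ⬝ᵥ a + ε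

/-- the linear part of the interpolation of a function -/
def lab (x : Cu n) : Pt n := fun i => x (Pi.single i 1) + x 0

/-- normalisation of a function -/
def nrm (x : Cu n) : Cu n := x + aff (lab x) (x 0)

theorem cu_add_self (x : Cu n) : x + x = 0 := CharTwo.add_self_eq_zero x

theorem pt_add_self (x : Pt n) : x + x = 0 := funext fun i => CharTwo.add_self_eq_zero (x i)

theorem aff_add (γ γ' : Pt n) (ε ε' : ZMod 2) :
    aff (γ + γ') (ε + ε') = aff γ ε + aff γ' ε' := by
  ext a
  simp only [aff, Pi.add_apply, add_dotProduct]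
  abel

theorem lab_add (x y : Cu n) : lab (x + y) = lab x + lab y := by
  ext i
  simp only [lab, Pi.add_apply]
  abel

theorem lab_aff (γ : Pt n) (ε : ZMod 2) : lab (aff γ ε) = γ := by
  ext i
  simp only [lab, aff, dotProduct_single, mul_one, dotProduct_zero, zero_add]
  rw [add_assoc, CharTwo.add_self_eq_zero, add_zero]

theorem aff_zero_apply (γ : Pt n) (ε : ZMod 2) : aff γ ε 0 = ε := by
  simp [aff]

theorem nrm_add_aff (x : Cu n) (γ : Pt n) (ε : ZMod 2) : nrm (x + aff γ ε) = nrm x := by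
  rw [nrm, nrm, lab_add, lab_aff, Pi.add_apply, aff_zero_apply, aff_add]
  calc x + aff γ ε + (aff (lab x) (x 0) + aff γ ε)
      = x + aff (lab x) (x 0) + (aff γ ε + aff γ ε) := by abel
    _ = _ := by rw [cu_add_self, add_zero]

/-- the sum of the signs -/
noncomputable def cor (w : Cu n) : ℝ := ∑ a, sg (w a)

theorem sum_sg_dot (γ : Pt n) : ∑ a : Pt n, sg (γ ⬝ᵥ a) = if γ = 0 then (2 : ℝ) ^ n else 0 := by
  split_ifs with h
  · subst h
    simp [sg_zero, ZMod.card]
  · obtain ⟨i, hi⟩ := Function.ne_iff.1 h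
    have hi1 : γ i = 1 := (zmod_two_cases (γ i)).resolve_left hi
    have h1 := Equiv.sum_comp (Equiv.addRight (Pi.single i (1 : ZMod 2)))
      (fun a : Pt n => sg (γ ⬝ᵥ a))
    simp only [Equiv.coe_addRight] at h1
    have h2 : ∀ a : Pt n, sg (γ ⬝ᵥ (a + Pi.single i 1)) = - sg (γ ⬝ᵥ a) := by
      intro a
      rw [dotProduct_add, sg_add, dotProduct_single, mul_one, hi1, sg_one]
      ring
    rw [sum_congr rfl fun a _ => h2 a, sum_neg_distrib] at h1
    linarith

theorem cor_aff (γ : Pt n) : cor (aff γ 0) = if γ = 0 then (2 : ℝ) ^ n else 0 := by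
  rw [← sum_sg_dot γ, cor]
  exact sum_congr rfl fun a _ => by rw [aff, add_zero]

/-- the normalising constant of the vectors -/
noncomputable def cst (n : ℕ) : ℝ := (√(((2 : ℝ) ^ n) ^ 3))⁻¹

theorem cst_sq (n : ℕ) : cst n ^ 2 = (((2 : ℝ) ^ n) ^ 3)⁻¹ := by
  rw [cst, inv_pow, Real.sq_sqrt (by positivity)]

/-- the vectors: tensor squares of the sign vectors -/
noncomputable def vec (x : Cu n) : EuclideanSpace ℝ (Pt n × Pt n) :=
  WithLp.toLp 2 (fun ab => cst n * (sg (x ab.1) * sg (x ab.2)))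

theorem inner_vec (x y : Cu n) : inner ℝ (vec x) (vec y) = cst n ^ 2 * cor (x + y) ^ 2 := by
  rw [PiLp.inner_apply]
  have h1 : ∀ ab : Pt n × Pt n, inner ℝ (vec x ab) (vec y ab) =
      cst n ^ 2 * (sg ((x + y) ab.1) * sg ((x + y) ab.2)) := by
    intro ab
    simp only [vec, Pi.add_apply, sg_add, RCLike.inner_apply, conj_trivial]
    ring
  rw [sum_congr rfl fun ab _ => h1 ab, ← mul_sum, cor, sq (∑ a, sg ((x + y) a)), sum_mul_sum,
    Fintype.sum_prod_type]

theorem vec_add_const (x : Cu n) (ε : ZMod 2) : vec (x + aff 0 ε) = vec x := by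
  ext ab
  simp only [vec, Pi.add_apply, sg_add, aff, zero_dotProduct, zero_add]
  have := sg_mul_self ε
  calc cst n * (sg (x ab.1) * sg ε * (sg (x ab.2) * sg ε))
      = cst n * (sg (x ab.1) * sg (x ab.2)) * (sg ε * sg ε) := by ring
    _ = _ := by rw [this, mul_one]

theorem cor_zero : cor (0 : Cu n) = 2 ^ n := by
  simp [cor, sg_zero, ZMod.card]

theorem norm_vec_sq (x : Cu n) : ‖vec x‖ ^ 2 = ((2 : ℝ) ^ n)⁻¹ := by
  rw [← real_inner_self_eq_norm_sq, inner_vec, cu_add_self, cor_zero, cst_sq]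
  field_simp

/-- The vector assignment. -/
noncomputable def sol (p : Cu n ⊕ Cu n) (γ : Pt n) : EuclideanSpace ℝ (Pt n × Pt n) :=
  vec (Sum.elim id id p + aff γ 0)

theorem sol_isSDP (n : ℕ) : IsSDPSolution (sol (n := n)) := by
  refine ⟨?_, ?_, WithLp.toLp 2 (fun ab => if ab.1 = ab.2 then cst n * 2 ^ n else 0), ?_, ?_⟩
  · intro p γ γ' h
    rw [sol, sol, inner_vec]
    have h1 : Sum.elim id id p + aff γ 0 + (Sum.elim id id p + aff γ' 0) = aff (γ + γ') 0 := by
      calc Sum.elim id id p + aff γ 0 + (Sum.elim id id p + aff γ' 0)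
          = (Sum.elim id id p + Sum.elim id id p) + (aff γ 0 + aff γ' 0) := by abel
        _ = aff (γ + γ') 0 := by rw [cu_add_self, zero_add, ← aff_add, add_zero]
    have h2 : γ + γ' ≠ 0 := by
      intro h3
      apply h
      calc γ = γ + (γ' + γ') := by rw [pt_add_self, add_zero]
        _ = γ' := by rw [← add_assoc, h3, zero_add]
    rw [h1, cor_aff, if_neg h2]
    ring
  · intro p q γ γ'
    rw [sol, sol, inner_vec]
    positivity
  · have h1 : ‖(WithLp.toLp 2 (fun ab : Pt n × Pt n =>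
        if ab.1 = ab.2 then cst n * 2 ^ n else 0) : EuclideanSpace ℝ (Pt n × Pt n))‖ ^ 2 = 1 := by
      rw [EuclideanSpace.real_norm_sq_eq, Fintype.sum_prod_type]
      have : ∀ a : Pt n, ∑ b : Pt n, (if a = b then cst n * 2 ^ n else 0) ^ 2 =
          cst n ^ 2 * (2 ^ n) ^ 2 := by
        intro a
        simp only [ite_pow, ne_eq, OfNat.ofNat_ne_zero, not_false_eq_true, zero_pow,
          sum_ite_eq, mem_univ, if_true]
        ring
      rw [sum_congr rfl fun a _ => this a, sum_const, card_univ, Fintype.card_fun, ZMod.card,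
        Fintype.card_fin, nsmul_eq_mul, cst_sq]
      push_cast
      field_simp
    have h2 := norm_nonneg (WithLp.toLp 2 (fun ab : Pt n × Pt n =>
        if ab.1 = ab.2 then cst n * 2 ^ n else 0) : EuclideanSpace ℝ (Pt n × Pt n))
    nlinarith
  · intro p
    ext ab
    rw [WithLp.ofLp_sum, Finset.sum_apply]
    have h1 : ∀ γ : Pt n, (sol p γ) ab = cst n * (sg (Sum.elim id id p ab.1) *
        sg (Sum.elim id id p ab.2)) * sg ((ab.1 + ab.2) ⬝ᵥ γ) := by
      intro γ
      simp only [sol, vec, Pi.add_apply, sg_add, aff, add_zero, add_dotProduct]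
      rw [dotProduct_comm γ ab.1, dotProduct_comm γ ab.2]
      ring
    rw [sum_congr rfl fun γ _ => h1 γ, ← mul_sum, sum_sg_dot]
    by_cases h : ab.1 = ab.2
    · rw [h, pt_add_self, if_pos rfl]
      simp only [h, if_true]
      rw [sg_mul_self, mul_one]
    · have h2 : ab.1 + ab.2 ≠ 0 := by
        intro h3
        apply h
        calc ab.1 = ab.1 + (ab.2 + ab.2) := by rw [pt_add_self, add_zero]
          _ = ab.2 := by rw [← add_assoc, h3, zero_add]
      rw [if_neg h2]
      simp [h]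

theorem vec_triangle (x y w : Cu n) :
    ‖vec x - vec w‖ ^ 2 ≤ ‖vec x - vec y‖ ^ 2 + ‖vec y - vec w‖ ^ 2 := by
  rw [EuclideanSpace.real_norm_sq_eq, EuclideanSpace.real_norm_sq_eq,
    EuclideanSpace.real_norm_sq_eq, ← sum_add_distrib]
  refine sum_le_sum fun ab _ => ?_
  have h0 : ∀ x : Cu n, sg (x ab.1) * sg (x ab.2) = 1 ∨ sg (x ab.1) * sg (x ab.2) = -1 := by
    intro x
    rcases zmod_two_cases (x ab.1) with h1 | h1 <;> rcases zmod_two_cases (x ab.2) with h2 | h2 <;>
      rw [h1, h2] <;> simp [sg_zero, sg_one]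
  have hc := sq_nonneg (cst n)
  have h1 : ∀ x y : Cu n, (vec x - vec y) ab =
      cst n * (sg (x ab.1) * sg (x ab.2) - sg (y ab.1) * sg (y ab.2)) := by
    intro x y
    simp only [vec, PiLp.sub_apply]
    ring
  simp only [h1, mul_pow]
  rw [← mul_add]
  refine mul_le_mul_of_nonneg_left ?_ hc
  rcases h0 x with hx | hx <;> rcases h0 y with hy | hy <;> rcases h0 w with hw | hw <;>
    rw [hx, hy, hw] <;> norm_num

theorem sol_triangle (n : ℕ) : TriangleIneq (sol (n := n)) := by
  have key : ∀ a : EuclideanSpace ℝ (Pt n × Pt n),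
      a ∈ insert 0 {v | ∃ p i, v = sol (n := n) p i} → a = 0 ∨ ∃ x : Cu n, a = vec x := by
    rintro a (h | ⟨p, i, h⟩)
    · exact Or.inl h
    · exact Or.inr ⟨_, h⟩
  intro a ha b hb c hc
  rcases key a ha with rfl | ⟨x, rfl⟩ <;> rcases key b hb with rfl | ⟨y, rfl⟩ <;>
    rcases key c hc with rfl | ⟨w, rfl⟩
  · simp
  · simp
  · simp
  · rw [zero_sub, zero_sub, norm_neg, norm_neg, norm_vec_sq, norm_vec_sq]
    have := sq_nonneg ‖vec y - vec w‖
    linarith
  · simp
  · rw [zero_sub, sub_zero, norm_neg, norm_sub_sq_real, inner_vec]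
    have : 0 ≤ cst n ^ 2 * cor (x + w) ^ 2 := by positivity
    linarith
  · rw [sub_zero, sub_zero, norm_vec_sq, norm_vec_sq]
    have := sq_nonneg ‖vec x - vec y‖
    linarith
  · exact vec_triangle x y w

end affine

end Pool.Agent.Lib.P325x
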