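import Pool.Agent.Lib.P325x.Cube

/-!
The Bonami inequality for the exponents 2 and 4 and its consequence for the noise stability of
small sets.
-/

open scoped BigOperators
open Finset

namespace Pool.Agent.Lib.P325x

variable {A : Type*} [Fintype A] [DecidableEq A]

omit [Fintype A] in
theorem W_insert {a : A} {S : Finset A} (ha : a ∉ S) (x : A → ZMod 2) :
    W (insert a S) x = sg (x a) * W S x := by
  rw [W, W, prod_insert ha]

omit [Fintype A] in
theorem W_flip {a : A} {S : Finset A} (ha : a ∉ S) (x : A → ZMod 2) :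
    W S (x + Pi.single a 1) = W S x := by
  rw [W, W]
  refine prod_congr rfl fun b hb => ?_
  have : b ≠ a := fun h => ha (h ▸ hb)
  rw [Pi.add_apply, Pi.single_eq_of_ne this, add_zero]

theorem bonami (T : Finset A) (d : Finset A → ℝ) :
    mean (fun x => (∑ S ∈ T.powerset, d S * W S x) ^ 4) ≤
      (∑ S ∈ T.powerset, 3 ^ S.card * d S ^ 2) ^ 2 := by
  induction T using Finset.induction_on generalizing d with
  | empty =>
    simp only [powerset_empty, sum_singleton, W_empty, card_empty, pow_zero, one_mul, mul_one]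
    rw [mean_const]
    exact le_of_eq (by ring)
  | insert a T ha ih =>
    set P : (A → ZMod 2) → ℝ := fun x => ∑ S ∈ T.powerset, d S * W S x with hP
    set Q : (A → ZMod 2) → ℝ := fun x => ∑ S ∈ T.powerset, d (insert a S) * W S x with hQ
    set p : ℝ := ∑ S ∈ T.powerset, 3 ^ S.card * d S ^ 2 with hp
    set q : ℝ := ∑ S ∈ T.powerset, 3 ^ S.card * d (insert a S) ^ 2 with hq
    have hnot : ∀ S ∈ T.powerset, a ∉ S := fun S hS h => ha (mem_powerset.1 hS h)
    have hsplit : ∀ x, ∑ S ∈ (insert a T).powerset, d S * W S x = P x + sg (x a) * Q x := by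
      intro x
      rw [sum_powerset_insert ha, hP, hQ]
      simp only
      rw [mul_sum]
      congr 1
      refine sum_congr rfl fun S hS => ?_
      rw [W_insert (hnot S hS)]
      ring
    have hflipP : ∀ x, P (x + Pi.single a 1) = P x := fun x =>
      sum_congr rfl fun S hS => by rw [W_flip (hnot S hS)]
    have hflipQ : ∀ x, Q (x + Pi.single a 1) = Q x := fun x =>
      sum_congr rfl fun S hS => by rw [W_flip (hnot S hS)]
    have hRHS : ∑ S ∈ (insert a T).powerset, (3 : ℝ) ^ S.card * d S ^ 2 = p + 3 * q := by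
      rw [sum_powerset_insert ha, hp, hq, mul_sum]
      congr 1
      refine sum_congr rfl fun S hS => ?_
      rw [card_insert_of_notMem (hnot S hS), pow_succ]
      ring
    have h1 : mean (fun x => (P x + sg (x a) * Q x) ^ 4) =
        mean (fun x => P x ^ 4 + 6 * (P x ^ 2 * Q x ^ 2) + Q x ^ 4) := by
      have e1 := mean_equiv (Equiv.addRight (Pi.single a (1 : ZMod 2)))
        (fun x => (P x + sg (x a) * Q x) ^ 4)
      have e2 : mean (fun x => (P x + sg (x a) * Q x) ^ 4) =
          mean (fun x => (P x + -sg (x a) * Q x) ^ 4) := by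
        rw [← e1]
        refine mean_congr fun x => ?_
        simp only [Equiv.coe_addRight]
        rw [hflipP, hflipQ, Pi.add_apply, Pi.single_eq_same, sg_add, sg_one]
        ring
      have e3 : mean (fun x => (P x + sg (x a) * Q x) ^ 4) +
          mean (fun x => (P x + -sg (x a) * Q x) ^ 4) =
          2 * mean (fun x => P x ^ 4 + 6 * (P x ^ 2 * Q x ^ 2) + Q x ^ 4) := by
        rw [← mean_add, ← mean_smul]
        refine mean_congr fun x => ?_
        have hs := sg_mul_self (x a)
        generalize sg (x a) = s at hs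
        have hs2 : s ^ 2 = 1 := by rw [sq]; exact hs
        have hs4 : s ^ 4 = 1 := by
          calc s ^ 4 = (s ^ 2) ^ 2 := by ring
            _ = 1 := by rw [hs2]; norm_num
        calc (P x + s * Q x) ^ 4 + (P x + -s * Q x) ^ 4
            = 2 * (P x ^ 4 + 6 * s ^ 2 * (P x ^ 2 * Q x ^ 2) + s ^ 4 * Q x ^ 4) := by ring
          _ = _ := by rw [hs2, hs4]; ring
      linarith
    have h2 : mean (fun x => P x ^ 4) ≤ p ^ 2 := ih d
    have h3 : mean (fun x => Q x ^ 4) ≤ q ^ 2 := ih (fun S => d (insert a S))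
    have hp0 : 0 ≤ p := sum_nonneg fun S _ => by positivity
    have hq0 : 0 ≤ q := sum_nonneg fun S _ => by positivity
    have h4 : mean (fun x => P x ^ 2 * Q x ^ 2) ≤ p * q := by
      have h5 := mean_mul_sq_le (fun x => P x ^ 2) (fun x => Q x ^ 2)
      have h6 : mean (fun x => (P x ^ 2) ^ 2) = mean (fun x => P x ^ 4) :=
        mean_congr fun x => by ring
      have h7 : mean (fun x => (Q x ^ 2) ^ 2) = mean (fun x => Q x ^ 4) :=
        mean_congr fun x => by ring
      rw [h6, h7] at h5
      refine abs_le_of_sq_le_sq' ?_ (by positivity) |>.2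
      calc mean (fun x => P x ^ 2 * Q x ^ 2) ^ 2 ≤ _ := h5
        _ ≤ p ^ 2 * q ^ 2 := mul_le_mul h2 h3 (mean_nonneg fun x => by positivity) (by positivity)
        _ = (p * q) ^ 2 := by ring
    calc mean (fun x => (∑ S ∈ (insert a T).powerset, d S * W S x) ^ 4)
        = mean (fun x => P x ^ 4 + 6 * (P x ^ 2 * Q x ^ 2) + Q x ^ 4) := by
          rw [← h1]
          exact mean_congr fun x => by rw [hsplit]
      _ = mean (fun x => P x ^ 4) + 6 * mean (fun x => P x ^ 2 * Q x ^ 2) +
            mean (fun x => Q x ^ 4) := by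
          rw [mean_add, mean_add, mean_smul]
      _ ≤ p ^ 2 + 6 * (p * q) + q ^ 2 := by linarith
      _ ≤ (p + 3 * q) ^ 2 := by nlinarith [sq_nonneg q]
      _ = _ := by rw [hRHS]

/-- The weight of the Fourier transform of the indicator of a set of measure `δ`. -/
theorem level_weight {f : (A → ZMod 2) → ℝ} (hf : ∀ x, f x = 0 ∨ f x = 1) :
    (∑ S, (1 / 3 : ℝ) ^ S.card * hat f S ^ 2) ^ 2 ≤ mean f ^ 3 := by
  set q : ℝ := ∑ S, (1 / 3 : ℝ) ^ S.card * hat f S ^ 2 with hq
  set P : (A → ZMod 2) → ℝ := fun x => ∑ S, ((1 / 3 : ℝ) ^ S.card * hat f S) * W S x with hP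
  have hff : ∀ x, f x * f x = f x := by
    intro x
    rcases hf x with h | h <;> norm_num [h]
  have hf0 : 0 ≤ mean f := mean_nonneg fun x => by
    rcases hf x with h | h <;> norm_num [h]
  have h1 : mean (fun x => f x * P x) = q := by
    calc mean (fun x => f x * P x)
        = mean (fun x => ∑ S, ((1 / 3 : ℝ) ^ S.card * hat f S) * (f x * W S x)) := by
          refine mean_congr fun x => ?_
          rw [hP]
          simp only
          rw [mul_sum]
          exact sum_congr rfl fun S _ => by ring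
      _ = q := by
          rw [mean_sum]
          refine sum_congr rfl fun S _ => ?_
          rw [mean_smul, ← hat]
          ring
  have h2 : mean (fun x => P x ^ 4) ≤ q ^ 2 := by
    have := bonami univ (fun S => (1 / 3 : ℝ) ^ S.card * hat f S)
    rw [powerset_univ] at this
    refine this.trans (le_of_eq ?_)
    rw [hq]
    congr 1
    refine sum_congr rfl fun S _ => ?_
    have h3 : (3 : ℝ) ^ S.card * (1 / 3) ^ S.card = 1 := by
      rw [← mul_pow]; norm_num
    calc (3 : ℝ) ^ S.card * ((1 / 3) ^ S.card * hat f S) ^ 2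
        = ((3 : ℝ) ^ S.card * (1 / 3) ^ S.card) * ((1 / 3) ^ S.card * hat f S ^ 2) := by ring
      _ = _ := by rw [h3, one_mul]
  have h3 : q ^ 2 ≤ mean f * mean (fun x => f x * P x ^ 2) := by
    have h4 := mean_mul_sq_le f (fun x => f x * P x)
    have e1 : mean (fun x => f x * (f x * P x)) = q := by
      rw [← h1]
      exact mean_congr fun x => by rw [← mul_assoc, hff]
    have e2 : mean (fun x => f x ^ 2) = mean f := mean_congr fun x => by rw [sq, hff]
    have e3 : mean (fun x => (f x * P x) ^ 2) = mean (fun x => f x * P x ^ 2) :=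
      mean_congr fun x => by rw [mul_pow, sq, hff]
    rwa [e1, e2, e3] at h4
  have h5 : mean (fun x => f x * P x ^ 2) ^ 2 ≤ mean f * q ^ 2 := by
    have h4 := mean_mul_sq_le f (fun x => P x ^ 2)
    have e2 : mean (fun x => f x ^ 2) = mean f := mean_congr fun x => by rw [sq, hff]
    have e3 : mean (fun x => (P x ^ 2) ^ 2) = mean (fun x => P x ^ 4) :=
      mean_congr fun x => by ring
    rw [e2, e3] at h4
    exact h4.trans (mul_le_mul_of_nonneg_left h2 hf0)
  have hq0 : 0 ≤ q := sum_nonneg fun S _ => by positivity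
  rcases hq0.eq_or_lt with h0 | h0
  · rw [← h0, zero_pow two_ne_zero]
    positivity
  · have h6 : (q ^ 2) ^ 2 ≤ mean f ^ 3 * q ^ 2 := by
      calc (q ^ 2) ^ 2 ≤ (mean f * mean (fun x => f x * P x ^ 2)) ^ 2 :=
            pow_le_pow_left₀ (by positivity) h3 2
        _ = mean f ^ 2 * mean (fun x => f x * P x ^ 2) ^ 2 := by ring
        _ ≤ mean f ^ 2 * (mean f * q ^ 2) := mul_le_mul_of_nonneg_left h5 (by positivity)
        _ = mean f ^ 3 * q ^ 2 := by ring
    have h7 : 0 < q ^ 2 := by positivity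
    have h8 : q ^ 2 * q ^ 2 ≤ mean f ^ 3 * q ^ 2 := by rw [← sq]; exact h6
    exact le_of_mul_le_mul_right h8 h7

/-- Small set expansion: the noise stability of the indicator of a set of measure `δ`. -/
theorem small_set {f : (A → ZMod 2) → ℝ} (hf : ∀ x, f x = 0 ∨ f x = 1) {ρ : ℝ} (hρ : 0 ≤ ρ)
    {k : ℕ} (hk : ρ ^ k ≤ 1 / 3) :
    (∑ S, ρ ^ S.card * hat f S ^ 2) ^ (2 * k) ≤ mean f ^ (2 * k) * mean f := by
  have hf0 : 0 ≤ mean f := mean_nonneg fun x => by
    rcases hf x with h | h <;> norm_num [h]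
  have hpars : ∑ S, hat f S ^ 2 = mean f := by
    rw [← parseval]
    refine mean_congr fun x => ?_
    rcases hf x with h | h <;> norm_num [h]
  have hk0 : k ≠ 0 := by
    rintro rfl
    norm_num at hk
  rcases hf0.eq_or_lt with h0 | h0
  · have h1 : ∀ S, hat f S ^ 2 = 0 := by
      intro S
      have h2 : ∑ S, hat f S ^ 2 = 0 := by rw [hpars, ← h0]
      exact (sum_eq_zero_iff_of_nonneg (fun S _ => sq_nonneg _)).1 h2 S (mem_univ S)
    rw [sum_eq_zero fun S _ => by rw [h1, mul_zero], zero_pow (by omega)]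
    positivity
  · have h1 := Real.pow_arith_mean_le_arith_mean_pow univ
      (fun S => hat f S ^ 2 / mean f) (fun S => ρ ^ S.card)
      (fun S _ => by positivity)
      (by rw [← sum_div, hpars, div_self h0.ne']) (fun S _ => by positivity) k
    have h2 : ∑ S, hat f S ^ 2 / mean f * (ρ ^ S.card) ^ k ≤
        (∑ S, (1 / 3 : ℝ) ^ S.card * hat f S ^ 2) / mean f := by
      rw [sum_div]
      refine sum_le_sum fun S _ => ?_
      have h3 : (ρ ^ S.card) ^ k ≤ (1 / 3 : ℝ) ^ S.card := by
        rw [← pow_mul, mul_comm, pow_mul]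
        exact pow_le_pow_left₀ (by positivity) hk _
      calc hat f S ^ 2 / mean f * (ρ ^ S.card) ^ k ≤ hat f S ^ 2 / mean f * (1 / 3 : ℝ) ^ S.card :=
            mul_le_mul_of_nonneg_left h3 (by positivity)
        _ = _ := by ring
    have h3 : ∑ S, hat f S ^ 2 / mean f * ρ ^ S.card = (∑ S, ρ ^ S.card * hat f S ^ 2) / mean f := by
      rw [sum_div]
      exact sum_congr rfl fun S _ => by ring
    rw [h3, div_pow] at h1
    have h4 := h1.trans h2
    have h5 := level_weight hf
    have h6 : ((∑ S, ρ ^ S.card * hat f S ^ 2) ^ k / mean f ^ k) ^ 2 ≤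
        ((∑ S, (1 / 3 : ℝ) ^ S.card * hat f S ^ 2) / mean f) ^ 2 :=
      pow_le_pow_left₀ (by positivity) h4 2
    have h7 : ((∑ S, (1 / 3 : ℝ) ^ S.card * hat f S ^ 2) / mean f) ^ 2 ≤ mean f := by
      rw [div_pow, div_le_iff₀ (by positivity)]
      exact h5.trans (le_of_eq (by ring))
    have h8 := h6.trans h7
    rw [div_pow, div_le_iff₀ (by positivity)] at h8
    calc (∑ S, ρ ^ S.card * hat f S ^ 2) ^ (2 * k)
        = ((∑ S, ρ ^ S.card * hat f S ^ 2) ^ k) ^ 2 := by rw [← pow_mul, mul_comm]
      _ ≤ _ := h8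
      _ = _ := by rw [← pow_mul]; ring

end Pool.Agent.Lib.P325x
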