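import Mathlib

/-!
Fourier analysis on the cube `A → ZMod 2`, the noise operator and the Bonami inequality.
-/

open scoped BigOperators
open Finset

namespace Pool.Agent.Lib.P325x

section average

variable {E : Type*} [Fintype E]

/-- average of a function on a finite type -/
noncomputable def mean (F : E → ℝ) : ℝ := (∑ x, F x) / (Fintype.card E : ℝ)

theorem mean_add (F G : E → ℝ) : mean (fun x => F x + G x) = mean F + mean G := by
  rw [mean, mean, mean, sum_add_distrib, add_div]

theorem mean_smul (c : ℝ) (F : E → ℝ) : mean (fun x => c * F x) = c * mean F := by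
  rw [mean, mean, ← mul_sum, mul_div_assoc]

theorem mean_mul (c : ℝ) (F : E → ℝ) : mean (fun x => F x * c) = mean F * c := by
  rw [mean, mean, ← sum_mul, div_mul_eq_mul_div]

theorem mean_sum {κ : Type*} (T : Finset κ) (F : κ → E → ℝ) :
    mean (fun x => ∑ t ∈ T, F t x) = ∑ t ∈ T, mean (F t) := by
  simp only [mean]
  rw [sum_comm, sum_div]

theorem mean_mono {F G : E → ℝ} (h : ∀ x, F x ≤ G x) : mean F ≤ mean G :=
  div_le_div_of_nonneg_right (sum_le_sum fun x _ => h x) (Nat.cast_nonneg _)

theorem mean_nonneg {F : E → ℝ} (h : ∀ x, 0 ≤ F x) : 0 ≤ mean F :=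
  div_nonneg (sum_nonneg fun x _ => h x) (Nat.cast_nonneg _)

theorem mean_const [Nonempty E] (c : ℝ) : mean (fun _ : E => c) = c := by
  have : (Fintype.card E : ℝ) ≠ 0 := by exact_mod_cast Fintype.card_ne_zero
  rw [mean, sum_const, card_univ, nsmul_eq_mul, mul_div_cancel_left₀ _ this]

theorem mean_congr {F G : E → ℝ} (h : ∀ x, F x = G x) : mean F = mean G := by
  rw [mean, mean, sum_congr rfl fun x _ => h x]

theorem mean_equiv {E' : Type*} [Fintype E'] (e : E ≃ E') (F : E' → ℝ) :
    mean (fun x => F (e x)) = mean F := by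
  rw [mean, mean, Equiv.sum_comp e F, Fintype.card_congr e]

theorem mean_mul_sq_le (F G : E → ℝ) :
    mean (fun x => F x * G x) ^ 2 ≤ mean (fun x => F x ^ 2) * mean (fun x => G x ^ 2) := by
  rw [mean, mean, mean, div_pow, div_mul_div_comm, ← sq]
  exact div_le_div_of_nonneg_right (sum_mul_sq_le_sq_mul_sq _ _ _) (by positivity)

theorem mean_prod {E' : Type*} [Fintype E'] (F : E × E' → ℝ) :
    mean F = mean (fun x => mean (fun y => F (x, y))) := by
  simp only [mean]
  rw [Fintype.sum_prod_type, Fintype.card_prod, ← sum_div, div_div]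
  congr 1
  push_cast
  ring

theorem mean_comm {E' : Type*} [Fintype E'] (F : E → E' → ℝ) :
    mean (fun x => mean (fun y => F x y)) = mean (fun y => mean (fun x => F x y)) := by
  simp only [mean]
  rw [← sum_div, ← sum_div, sum_comm, div_div, div_div, mul_comm (Fintype.card E : ℝ)]

end average

/-- the sign character of `ZMod 2` -/
noncomputable def sg (t : ZMod 2) : ℝ := if t = 0 then 1 else -1

theorem sg_zero : sg 0 = 1 := by simp [sg]

theorem sg_one : sg 1 = -1 := by simp [sg]

theorem zmod_two_cases (t : ZMod 2) : t = 0 ∨ t = 1 := by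
  fin_cases t
  · exact Or.inl rfl
  · exact Or.inr rfl

theorem sg_add (s t : ZMod 2) : sg (s + t) = sg s * sg t := by
  rcases zmod_two_cases s with rfl | rfl <;> rcases zmod_two_cases t with rfl | rfl
  · simp [sg_zero]
  · simp [sg_zero]
  · simp [sg_zero]
  · have : (1 : ZMod 2) + 1 = 0 := by decide
    rw [this, sg_zero, sg_one]
    norm_num

theorem sg_mul_self (t : ZMod 2) : sg t * sg t = 1 := by
  rcases zmod_two_cases t with rfl | rfl
  · simp [sg_zero]
  · rw [sg_one]; norm_num

theorem sg_sum {α : Type*} (s : Finset α) (f : α → ZMod 2) :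
    sg (∑ i ∈ s, f i) = ∏ i ∈ s, sg (f i) := by
  classical
  induction s using Finset.induction_on with
  | empty => simp [sg_zero]
  | insert a s ha ih => rw [sum_insert ha, prod_insert ha, sg_add, ih]

section cube

variable {A : Type*}

/-- the character of a finite set -/
noncomputable def W (S : Finset A) (x : A → ZMod 2) : ℝ := ∏ a ∈ S, sg (x a)

theorem W_empty (x : A → ZMod 2) : W ∅ x = 1 := by simp [W]

theorem W_add (S : Finset A) (x y : A → ZMod 2) : W S (x + y) = W S x * W S y := by
  rw [W, W, W, ← prod_mul_distrib]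
  exact prod_congr rfl fun a _ => sg_add _ _

theorem W_mul_self (S : Finset A) (x : A → ZMod 2) : W S x * W S x = 1 := by
  rw [W, ← prod_mul_distrib]
  exact prod_eq_one fun a _ => sg_mul_self _

variable [Fintype A] [DecidableEq A]

omit [DecidableEq A] in
theorem sum_W_mul_W (x y : A → ZMod 2) :
    ∑ S : Finset A, W S x * W S y = if x = y then (2 : ℝ) ^ Fintype.card A else 0 := by
  have h1 : ∑ S : Finset A, W S x * W S y = ∏ a, (1 + sg (x a) * sg (y a)) := by
    rw [prod_one_add, powerset_univ]
    exact sum_congr rfl fun S _ => by rw [W, W, prod_mul_distrib]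
  rw [h1]
  split_ifs with h
  · subst h
    rw [prod_congr rfl fun a _ => by rw [sg_mul_self]]
    rw [prod_const, card_univ]
    norm_num
  · obtain ⟨a, ha⟩ := Function.ne_iff.1 h
    refine prod_eq_zero (mem_univ a) ?_
    rcases zmod_two_cases (x a) with hx | hx <;> rcases zmod_two_cases (y a) with hy | hy
    · exact absurd (hx.trans hy.symm) ha
    · rw [hx, hy, sg_zero, sg_one]; norm_num
    · rw [hx, hy, sg_zero, sg_one]; norm_num
    · exact absurd (hx.trans hy.symm) ha

theorem card_cube : (Fintype.card (A → ZMod 2) : ℝ) = 2 ^ Fintype.card A := by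
  rw [Fintype.card_fun, ZMod.card]
  push_cast
  rfl

/-- Fourier coefficient -/
noncomputable def hat (f : (A → ZMod 2) → ℝ) (S : Finset A) : ℝ := mean (fun x => f x * W S x)

theorem inversion (f : (A → ZMod 2) → ℝ) (x : A → ZMod 2) : f x = ∑ S, hat f S * W S x := by
  have h2 : (2 : ℝ) ^ Fintype.card A ≠ 0 := by positivity
  symm
  calc ∑ S, hat f S * W S x = ∑ S : Finset A, mean (fun y => f y * (W S y * W S x)) := by
        refine sum_congr rfl fun S _ => ?_
        rw [hat, ← mean_mul]
        exact mean_congr fun y => by ring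
    _ = mean (fun y => ∑ S : Finset A, f y * (W S y * W S x)) := (mean_sum _ _).symm
    _ = mean (fun y => f y * if y = x then (2 : ℝ) ^ Fintype.card A else 0) :=
        mean_congr fun y => by rw [← mul_sum, sum_W_mul_W]
    _ = f x := by
        rw [mean, card_cube]
        simp only [mul_ite, mul_zero, sum_ite_eq', mem_univ, if_true]
        rw [mul_div_assoc, div_self h2, mul_one]

theorem plancherel (f g : (A → ZMod 2) → ℝ) :
    mean (fun x => f x * g x) = ∑ S, hat f S * hat g S := by
  calc mean (fun x => f x * g x) = mean (fun x => ∑ S, hat g S * (f x * W S x)) := by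
        refine mean_congr fun x => ?_
        rw [inversion g x, mul_sum]
        exact sum_congr rfl fun S _ => by ring
    _ = ∑ S, hat f S * hat g S := by
        rw [mean_sum]
        refine sum_congr rfl fun S _ => ?_
        rw [mean_smul, hat, mul_comm]
        rfl

theorem parseval (f : (A → ZMod 2) → ℝ) : mean (fun x => f x ^ 2) = ∑ S, hat f S ^ 2 := by
  simp_rw [sq]
  exact plancherel f f

/-- the noise vector: a coordinate is `1` when the random digit is smaller than `m` -/
def nz {q : ℕ} (m : ℕ) (r : A → Fin q) (a : A) : ZMod 2 := if (r a).val < m then 1 else 0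

theorem sum_nz {q m : ℕ} (hm : m ≤ q) :
    ∑ t : Fin q, sg (if t.val < m then 1 else 0) = (q : ℝ) - 2 * m := by
  have h1 : ∀ t : Fin q, sg (if t.val < m then 1 else 0) =
      1 - 2 * (if t.val < m then (1 : ℝ) else 0) := by
    intro t
    split_ifs
    · rw [sg_one]; norm_num
    · rw [sg_zero]; norm_num
  rw [sum_congr rfl fun t _ => h1 t, sum_sub_distrib, ← mul_sum, sum_boole]
  have h2 : (univ.filter (fun t : Fin q => t.val < m)).card = m := by
    rw [Fin.card_filter_val_lt]
    omega
  rw [h2]
  simp

theorem mean_W_nz {q m : ℕ} (hq : 0 < q) (hm : m ≤ q) (S : Finset A) :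
    mean (fun r : A → Fin q => W S (nz m r)) = (1 - 2 * (m : ℝ) / q) ^ S.card := by
  have hq' : (0 : ℝ) < q := by exact_mod_cast hq
  have h1 : ∑ r : A → Fin q, W S (nz m r) =
      ∏ a : A, ∑ t : Fin q, (if a ∈ S then sg (if t.val < m then 1 else 0) else 1) := by
    rw [prod_univ_sum, Fintype.piFinset_univ]
    refine sum_congr rfl fun r _ => ?_
    rw [W, prod_ite_mem, univ_inter]
    rfl
  have h2 : ∀ a : A, ∑ t : Fin q, (if a ∈ S then sg (if t.val < m then 1 else 0) else 1) =
      (if a ∈ S then ((1 : ℝ) - 2 * m / q) else 1) * q := by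
    intro a
    split_ifs with h
    · rw [sum_nz hm]
      field_simp
    · simp
  rw [mean, h1, prod_congr rfl fun a _ => h2 a, prod_mul_distrib, prod_const, card_univ,
    Fintype.card_fun, Fintype.card_fin, Nat.cast_pow, mul_div_assoc, div_self (by positivity),
    mul_one, prod_ite_mem, univ_inter, prod_const]

/-- Noise stability in terms of the Fourier coefficients. -/
theorem noise {q m : ℕ} (hq : 0 < q) (hm : m ≤ q) (f g : (A → ZMod 2) → ℝ) :
    mean (fun x => mean (fun r : A → Fin q => f x * g (x + nz m r))) =
      ∑ S, (1 - 2 * (m : ℝ) / q) ^ S.card * (hat f S * hat g S) := by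
  calc mean (fun x => mean (fun r : A → Fin q => f x * g (x + nz m r)))
      = mean (fun x => ∑ S, (hat g S * (1 - 2 * (m : ℝ) / q) ^ S.card) * (f x * W S x)) := by
        refine mean_congr fun x => ?_
        calc mean (fun r : A → Fin q => f x * g (x + nz m r))
            = mean (fun r : A → Fin q => ∑ S, (f x * W S x * hat g S) * W S (nz m r)) := by
              refine mean_congr fun r => ?_
              rw [inversion g (x + nz m r), mul_sum]
              exact sum_congr rfl fun S _ => by rw [W_add]; ring
          _ = _ := by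
              rw [mean_sum]
              refine sum_congr rfl fun S _ => ?_
              rw [mean_smul, mean_W_nz hq hm]
              ring
    _ = _ := by
        rw [mean_sum]
        refine sum_congr rfl fun S _ => ?_
        rw [mean_smul, ← hat]
        ring

end cube

end Pool.Agent.Lib.P325x
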