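import Pool.Agent.Lib.P325x.Round

/-!
The spectral gap applied to the tensor squares of a solution of the semidefinite relaxation.
-/

open scoped BigOperators
open Finset

namespace Pool.Agent.Lib.P325x

section gap

variable {U W Ω ι : Type} [Fintype ι] [Nonempty ι] (I : Game U W Ω ι) {μ : ℝ}

theorem gap_apply (hμ : 0 ≤ μ) (hI : I.SecondEigenvalueLE μ) (f : U → ℝ) (g : W → ℝ) :
    ∑ e, f (I.src e) * g (I.dst e) ≤
      (∑ e, f (I.src e)) * (∑ e, g (I.dst e)) / (Fintype.card ι : ℝ) +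
      μ * ((∑ e, f (I.src e) ^ 2 + ∑ e, g (I.dst e) ^ 2) / 2) := by
  have hι : (0 : ℝ) < Fintype.card ι := by exact_mod_cast Fintype.card_pos
  set N : ℝ := (Fintype.card ι : ℝ) with hN
  set F : ℝ := ∑ e, f (I.src e) with hF
  set G : ℝ := ∑ e, g (I.dst e) with hG
  have hc : ∀ c : ℝ, ∑ _e : ι, c = N * c := by
    intro c
    rw [sum_const, card_univ, nsmul_eq_mul]
  have h1 := hI (fun u => f u - F / N) (fun w => g w - G / N)
    (by rw [sum_sub_distrib, hc, mul_div_cancel₀ _ hι.ne', hF, sub_self])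
    (by rw [sum_sub_distrib, hc, mul_div_cancel₀ _ hι.ne', hG, sub_self])
  have h2 : ∑ e, (f (I.src e) - F / N) * (g (I.dst e) - G / N) =
      ∑ e, f (I.src e) * g (I.dst e) - F * G / N := by
    calc ∑ e, (f (I.src e) - F / N) * (g (I.dst e) - G / N)
        = ∑ e, (f (I.src e) * g (I.dst e) - f (I.src e) * (G / N) - (F / N) * g (I.dst e) +
            F / N * (G / N)) := sum_congr rfl fun e _ => by ring
      _ = ∑ e, f (I.src e) * g (I.dst e) - F * (G / N) - (F / N) * G + N * (F / N * (G / N)) := by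
          rw [sum_add_distrib, sum_sub_distrib, sum_sub_distrib, ← sum_mul, ← mul_sum, hc]
      _ = _ := by field_simp; ring
  have h3 : ∑ e, (f (I.src e) - F / N) ^ 2 ≤ ∑ e, f (I.src e) ^ 2 := by
    have : ∑ e, (f (I.src e) - F / N) ^ 2 = ∑ e, f (I.src e) ^ 2 - F ^ 2 / N := by
      calc ∑ e, (f (I.src e) - F / N) ^ 2
          = ∑ e, (f (I.src e) ^ 2 - f (I.src e) * (2 * (F / N)) + (F / N) ^ 2) :=
            sum_congr rfl fun e _ => by ring
        _ = ∑ e, f (I.src e) ^ 2 - F * (2 * (F / N)) + N * (F / N) ^ 2 := by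
            rw [sum_add_distrib, sum_sub_distrib, ← sum_mul, hc]
        _ = _ := by field_simp; ring
    rw [this]
    have : 0 ≤ F ^ 2 / N := by positivity
    linarith
  have h4 : ∑ e, (g (I.dst e) - G / N) ^ 2 ≤ ∑ e, g (I.dst e) ^ 2 := by
    have : ∑ e, (g (I.dst e) - G / N) ^ 2 = ∑ e, g (I.dst e) ^ 2 - G ^ 2 / N := by
      calc ∑ e, (g (I.dst e) - G / N) ^ 2
          = ∑ e, (g (I.dst e) ^ 2 - g (I.dst e) * (2 * (G / N)) + (G / N) ^ 2) :=
            sum_congr rfl fun e _ => by ring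
        _ = ∑ e, g (I.dst e) ^ 2 - G * (2 * (G / N)) + N * (G / N) ^ 2 := by
            rw [sum_add_distrib, sum_sub_distrib, ← sum_mul, hc]
        _ = _ := by field_simp; ring
    rw [this]
    have : 0 ≤ G ^ 2 / N := by positivity
    linarith
  rw [h2] at h1
  have h5 : μ * ((∑ e, (f (I.src e) - F / N) ^ 2 + ∑ e, (g (I.dst e) - G / N) ^ 2) / 2) ≤
      μ * ((∑ e, f (I.src e) ^ 2 + ∑ e, g (I.dst e) ^ 2) / 2) :=
    mul_le_mul_of_nonneg_left (by linarith) hμ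
  linarith

/-- the gap for vector valued functions, in terms of inner products -/
theorem gap_vector {κ : Type*} [Fintype κ] (hμ : 0 ≤ μ) (hI : I.SecondEigenvalueLE μ)
    (f : U → κ → ℝ) (g : W → κ → ℝ) :
    ∑ e, ∑ a, f (I.src e) a * g (I.dst e) a ≤
      (∑ e, ∑ e', ∑ a, f (I.src e) a * g (I.dst e') a) / (Fintype.card ι : ℝ) +
      μ * ((∑ e, ∑ a, f (I.src e) a ^ 2 + ∑ e, ∑ a, g (I.dst e) a ^ 2) / 2) := by
  have h1 : ∑ e, ∑ a, f (I.src e) a * g (I.dst e) a = ∑ a, ∑ e, f (I.src e) a * g (I.dst e) a :=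
    sum_comm
  have h2 : ∑ e, ∑ a, f (I.src e) a ^ 2 = ∑ a, ∑ e, f (I.src e) a ^ 2 := sum_comm
  have h3 : ∑ e, ∑ a, g (I.dst e) a ^ 2 = ∑ a, ∑ e, g (I.dst e) a ^ 2 := sum_comm
  have h4 : ∑ e, ∑ e', ∑ a, f (I.src e) a * g (I.dst e') a =
      ∑ a, (∑ e, f (I.src e) a) * (∑ e, g (I.dst e) a) := by
    calc ∑ e, ∑ e', ∑ a, f (I.src e) a * g (I.dst e') a
        = ∑ e, ∑ a, ∑ e', f (I.src e) a * g (I.dst e') a :=
          sum_congr rfl fun e _ => sum_comm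
      _ = ∑ a, ∑ e, ∑ e', f (I.src e) a * g (I.dst e') a := sum_comm
      _ = _ := sum_congr rfl fun a _ => by
          rw [sum_mul_sum]
  rw [h1, h2, h3, h4, ← sum_add_distrib, sum_div, sum_div, mul_sum, ← sum_add_distrib]
  exact sum_le_sum fun a _ => gap_apply I hμ hI (fun u => f u a) (fun w => g w a)

end gap

section tensor

variable {Ω κ : Type*} [Fintype Ω] [Fintype κ]

/-- the tensor square of a family with weights -/
def tens (α : Ω → ℝ) (x : Ω → EuclideanSpace ℝ κ) (ab : κ × κ) : ℝ :=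
  ∑ i, α i * (x i ab.1 * x i ab.2)

theorem inner_eq_sum (x y : EuclideanSpace ℝ κ) : inner ℝ x y = ∑ a, x a * y a := by
  rw [PiLp.inner_apply]
  refine sum_congr rfl fun a _ => ?_
  simp [mul_comm]

theorem sum_tens (α β : Ω → ℝ) (x y : Ω → EuclideanSpace ℝ κ) :
    ∑ ab, tens α x ab * tens β y ab = ∑ i, ∑ j, α i * β j * inner ℝ (x i) (y j) ^ 2 := by
  have h1 : ∀ i j, inner ℝ (x i) (y j) ^ 2 =
      ∑ ab : κ × κ, (x i ab.1 * x i ab.2) * (y j ab.1 * y j ab.2) := by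
    intro i j
    rw [inner_eq_sum, sq, sum_mul_sum, Fintype.sum_prod_type]
    exact sum_congr rfl fun a _ => sum_congr rfl fun b _ => by ring
  simp_rw [h1]
  calc ∑ ab, tens α x ab * tens β y ab
      = ∑ ab : κ × κ, ∑ i, ∑ j, α i * β j * ((x i ab.1 * x i ab.2) * (y j ab.1 * y j ab.2)) := by
        refine sum_congr rfl fun ab _ => ?_
        rw [tens, tens, sum_mul_sum]
        exact sum_congr rfl fun a _ => sum_congr rfl fun b _ => by ring
    _ = ∑ i, ∑ ab : κ × κ, ∑ j, α i * β j * ((x i ab.1 * x i ab.2) * (y j ab.1 * y j ab.2)) :=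
        sum_comm
    _ = _ := by
        refine sum_congr rfl fun i _ => ?_
        rw [sum_comm]
        exact sum_congr rfl fun j _ => by rw [mul_sum]

end tensor

section solution

variable {U W Ω ι κ : Type} [Fintype ι] [Nonempty ι] [Fintype Ω] [Fintype κ] (I : Game U W Ω ι)
  {X : U ⊕ W → Ω → EuclideanSpace ℝ κ}
  (horth : ∀ p i j, i ≠ j → inner ℝ (X p i) (X p j) = 0)
  {z : EuclideanSpace ℝ κ} (hz : ‖z‖ = 1) (hsum : ∀ p, ∑ i, X p i = z)

/-- the form of the tensor squares -/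
noncomputable def Game.gram (X : U ⊕ W → Ω → EuclideanSpace ℝ κ) (k : ℕ) (p q : U ⊕ W) : ℝ :=
  ∑ i, ∑ j, ‖X p i‖⁻¹ * ‖X q j‖⁻¹ * inner ℝ ((I.A X ^ k) (X p i)) ((I.A X ^ k) (X q j)) ^ 2

omit [Nonempty ι] in
theorem gram_eq (k : ℕ) (p q : U ⊕ W) : I.gram X k p q =
    ∑ ab : κ × κ, tens (fun i => ‖X p i‖⁻¹) (fun i => (I.A X ^ k) (X p i)) ab *
      tens (fun i => ‖X q i‖⁻¹) (fun i => (I.A X ^ k) (X q i)) ab :=
  (sum_tens _ _ _ _).symm

omit [Nonempty ι] [Fintype κ] in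
theorem inv_mul_inv_le (a b : ℝ) : a⁻¹ * b⁻¹ ≤ ((a ^ 2)⁻¹ + (b ^ 2)⁻¹) / 2 := by
  have := sq_nonneg (a⁻¹ - b⁻¹)
  rw [← inv_pow, ← inv_pow]
  nlinarith

omit [Nonempty ι] in
theorem inner_A_pow (k : ℕ) (x y : EuclideanSpace ℝ κ) :
    inner ℝ ((I.A X ^ k) x) ((I.A X ^ k) y) = inner ℝ x ((I.A X ^ (2 * k)) y) := by
  rw [Game.A, ← inner_dif_pow_comm, ← Module.End.mul_apply, ← pow_add, two_mul]

omit [Nonempty ι] in
theorem gram_le (k : ℕ) (p q : U ⊕ W) : I.gram X k p q ≤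
    (∑ j, en (X p) ((I.A X ^ (2 * k)) (X q j)) + ∑ i, en (X q) ((I.A X ^ (2 * k)) (X p i))) / 2 := by
  have h1 : ∑ j, en (X p) ((I.A X ^ (2 * k)) (X q j)) =
      ∑ i, ∑ j, (‖X p i‖ ^ 2)⁻¹ *
        inner ℝ ((I.A X ^ k) (X p i)) ((I.A X ^ k) (X q j)) ^ 2 := by
    rw [sum_comm]
    refine sum_congr rfl fun j _ => ?_
    rw [en]
    refine sum_congr rfl fun i _ => ?_
    rw [inner_A_pow, div_eq_inv_mul]
  have h2 : ∑ i, en (X q) ((I.A X ^ (2 * k)) (X p i)) =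
      ∑ i, ∑ j, (‖X q j‖ ^ 2)⁻¹ *
        inner ℝ ((I.A X ^ k) (X p i)) ((I.A X ^ k) (X q j)) ^ 2 := by
    refine sum_congr rfl fun i _ => ?_
    rw [en]
    refine sum_congr rfl fun j _ => ?_
    rw [inner_A_pow, ← real_inner_comm (X q j), div_eq_inv_mul]
    congr 2
    rw [Game.A, ← inner_dif_pow_comm]
  rw [h1, h2, ← sum_add_distrib, sum_div, Game.gram]
  refine sum_le_sum fun i _ => ?_
  rw [← sum_add_distrib, sum_div]
  refine sum_le_sum fun j _ => ?_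
  have h3 := inv_mul_inv_le ‖X p i‖ ‖X q j‖
  have h4 : 0 ≤ inner ℝ ((I.A X ^ k) (X p i)) ((I.A X ^ k) (X q j)) ^ 2 := sq_nonneg _
  nlinarith

include horth in
theorem norm_A_pow_le (k : ℕ) (y : EuclideanSpace ℝ κ) : ‖(I.A X ^ k) y‖ ^ 2 ≤ ‖y‖ ^ 2 := by
  cases k with
  | zero => simp
  | succ k =>
    have h1 := Eav_dif_pow (F := I.fam X) (fun k => horth _) k y
    have h2 := Eav_nonneg (I.fam X) ((dif (I.fam X) ^ k) y)
    rw [Game.A]
    have h3 : (0 : ℝ) ≤ ((k : ℝ) + 1) * Eav (I.fam X) ((dif (I.fam X) ^ k) y) := by positivity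
    linarith

include horth hz hsum in
theorem gram_le_one (k : ℕ) (p q : U ⊕ W) : I.gram X k p q ≤ 1 := by
  have h1 : ∀ p q : U ⊕ W, ∑ j, en (X p) ((I.A X ^ (2 * k)) (X q j)) ≤ 1 := by
    intro p q
    calc ∑ j, en (X p) ((I.A X ^ (2 * k)) (X q j)) ≤ ∑ j, ‖X q j‖ ^ 2 :=
          sum_le_sum fun j _ => (en_le (horth p) _).trans (norm_A_pow_le I horth _ _)
      _ = 1 := sum_norm_sq horth hz hsum q
  have h2 := gram_le I (X := X) k p q
  linarith [h1 p q, h1 q p]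

include horth hz hsum in
theorem sum_gram_le (k : ℕ) :
    ∑ e, ∑ e', I.gram X k (Sum.inl (I.src e)) (Sum.inr (I.dst e')) ≤
      (Fintype.card ι : ℝ) ^ 2 * (2 / (2 * k + 1)) := by
  have hι : (0 : ℝ) < Fintype.card ι := by exact_mod_cast Fintype.card_pos
  set N : ℝ := (Fintype.card ι : ℝ) with hN
  have hk : (0 : ℝ) < 2 * (k : ℝ) + 1 := by positivity
  -- total energy
  have hE : ∀ y : EuclideanSpace ℝ κ, ∑ m : ι ⊕ ι, en (I.fam X m) ((I.A X ^ (2 * k)) y) ≤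
      2 * N * (‖y‖ ^ 2 / (2 * k + 1)) := by
    intro y
    have h1 := Eav_dif_pow_le (F := I.fam X) (fun k => horth _) (2 * k) y
    rw [Eav, inv_mul_le_iff₀ (by exact_mod_cast Fintype.card_pos), Fintype.card_sum] at h1
    push_cast at h1
    refine h1.trans (le_of_eq ?_)
    rw [hN]
    ring
  have hU : ∀ y : EuclideanSpace ℝ κ, ∑ e, en (X (Sum.inl (I.src e))) ((I.A X ^ (2 * k)) y) ≤
      2 * N * (‖y‖ ^ 2 / (2 * k + 1)) := by
    intro y
    refine le_trans ?_ (hE y)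
    rw [Fintype.sum_sum_type]
    have h2 : 0 ≤ ∑ e : ι, en (I.fam X (Sum.inr e)) ((I.A X ^ (2 * k)) y) :=
      sum_nonneg fun e _ => en_nonneg _ _
    have h3 : ∑ e, en (X (Sum.inl (I.src e))) ((I.A X ^ (2 * k)) y) =
      ∑ e : ι, en (I.fam X (Sum.inl e)) ((I.A X ^ (2 * k)) y) := rfl
    rw [h3]
    linarith
  have hW : ∀ y : EuclideanSpace ℝ κ, ∑ e, en (X (Sum.inr (I.dst e))) ((I.A X ^ (2 * k)) y) ≤
      2 * N * (‖y‖ ^ 2 / (2 * k + 1)) := by
    intro y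
    refine le_trans ?_ (hE y)
    rw [Fintype.sum_sum_type]
    have h2 : 0 ≤ ∑ e : ι, en (I.fam X (Sum.inl e)) ((I.A X ^ (2 * k)) y) :=
      sum_nonneg fun e _ => en_nonneg _ _
    have h3 : ∑ e, en (X (Sum.inr (I.dst e))) ((I.A X ^ (2 * k)) y) =
      ∑ e : ι, en (I.fam X (Sum.inr e)) ((I.A X ^ (2 * k)) y) := rfl
    rw [h3]
    linarith
  have h1 : ∑ e, ∑ e', ∑ j, en (X (Sum.inl (I.src e)))
      ((I.A X ^ (2 * k)) (X (Sum.inr (I.dst e')) j)) ≤ N * (2 * N / (2 * k + 1)) := by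
    rw [sum_comm]
    calc ∑ e', ∑ e, ∑ j, en (X (Sum.inl (I.src e)))
          ((I.A X ^ (2 * k)) (X (Sum.inr (I.dst e')) j))
        = ∑ e', ∑ j, ∑ e, en (X (Sum.inl (I.src e)))
          ((I.A X ^ (2 * k)) (X (Sum.inr (I.dst e')) j)) :=
          sum_congr rfl fun e' _ => sum_comm
      _ ≤ ∑ e' : ι, ∑ j, 2 * N * (‖X (Sum.inr (I.dst e')) j‖ ^ 2 / (2 * k + 1)) :=
          sum_le_sum fun e' _ => sum_le_sum fun j _ => hU _
      _ = N * (2 * N / (2 * k + 1)) := by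
          have : ∀ e' : ι, ∑ j, 2 * N * (‖X (Sum.inr (I.dst e')) j‖ ^ 2 / (2 * k + 1)) =
              2 * N / (2 * k + 1) := by
            intro e'
            rw [← mul_sum, ← sum_div, sum_norm_sq horth hz hsum]
            ring
          rw [sum_congr rfl fun e' _ => this e', sum_const, card_univ, nsmul_eq_mul]
  have h2 : ∑ e, ∑ e', ∑ i, en (X (Sum.inr (I.dst e')))
      ((I.A X ^ (2 * k)) (X (Sum.inl (I.src e)) i)) ≤ N * (2 * N / (2 * k + 1)) := by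
    calc ∑ e, ∑ e', ∑ i, en (X (Sum.inr (I.dst e')))
          ((I.A X ^ (2 * k)) (X (Sum.inl (I.src e)) i))
        = ∑ e, ∑ i, ∑ e', en (X (Sum.inr (I.dst e')))
          ((I.A X ^ (2 * k)) (X (Sum.inl (I.src e)) i)) :=
          sum_congr rfl fun e' _ => sum_comm
      _ ≤ ∑ e : ι, ∑ i, 2 * N * (‖X (Sum.inl (I.src e)) i‖ ^ 2 / (2 * k + 1)) :=
          sum_le_sum fun e' _ => sum_le_sum fun j _ => hW _
      _ = N * (2 * N / (2 * k + 1)) := by
          have : ∀ e : ι, ∑ i, 2 * N * (‖X (Sum.inl (I.src e)) i‖ ^ 2 / (2 * k + 1)) =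
              2 * N / (2 * k + 1) := by
            intro e'
            rw [← mul_sum, ← sum_div, sum_norm_sq horth hz hsum]
            ring
          rw [sum_congr rfl fun e' _ => this e', sum_const, card_univ, nsmul_eq_mul]
  calc ∑ e, ∑ e', I.gram X k (Sum.inl (I.src e)) (Sum.inr (I.dst e'))
      ≤ ∑ e, ∑ e', (∑ j, en (X (Sum.inl (I.src e)))
          ((I.A X ^ (2 * k)) (X (Sum.inr (I.dst e')) j)) +
          ∑ i, en (X (Sum.inr (I.dst e'))) ((I.A X ^ (2 * k)) (X (Sum.inl (I.src e)) i))) / 2 :=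
        sum_le_sum fun e _ => sum_le_sum fun e' _ => gram_le I k _ _
    _ = ((∑ e, ∑ e', ∑ j, en (X (Sum.inl (I.src e)))
          ((I.A X ^ (2 * k)) (X (Sum.inr (I.dst e')) j))) +
          ∑ e, ∑ e', ∑ i, en (X (Sum.inr (I.dst e')))
            ((I.A X ^ (2 * k)) (X (Sum.inl (I.src e)) i))) / 2 := by
        rw [← sum_add_distrib, sum_div]
        refine sum_congr rfl fun e _ => ?_
        rw [← sum_add_distrib, sum_div]
    _ ≤ (N * (2 * N / (2 * k + 1)) + N * (2 * N / (2 * k + 1))) / 2 := by linarith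
    _ = N ^ 2 * (2 / (2 * k + 1)) := by ring

omit [Nonempty ι] in
include horth hz hsum in
theorem edge_sq_le (k : ℕ) (p q : U ⊕ W) (π : Equiv.Perm Ω) :
    (∑ i, inner ℝ (X p i) ((I.A X ^ (2 * k)) (X q (π i)))) ^ 2 ≤ I.gram X k p q := by
  have h1 : ∑ i, ‖X p i‖ * ‖X q (π i)‖ ≤ 1 := by
    have h2 : ∑ i, ‖X p i‖ * ‖X q (π i)‖ ≤ ∑ i, (‖X p i‖ ^ 2 + ‖X q (π i)‖ ^ 2) / 2 :=
      sum_le_sum fun i _ => by nlinarith [sq_nonneg (‖X p i‖ - ‖X q (π i)‖)]
    rw [← sum_div, sum_add_distrib, sum_norm_sq horth hz hsum,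
      Equiv.sum_comp π (fun i => ‖X q i‖ ^ 2), sum_norm_sq horth hz hsum] at h2
    linarith
  have h3 : (∑ i, inner ℝ ((I.A X ^ k) (X p i)) ((I.A X ^ k) (X q (π i)))) ^ 2 ≤
      (∑ i, ‖X p i‖⁻¹ * ‖X q (π i)‖⁻¹ *
        inner ℝ ((I.A X ^ k) (X p i)) ((I.A X ^ k) (X q (π i))) ^ 2) *
      ∑ i, ‖X p i‖ * ‖X q (π i)‖ := by
    refine sum_sq_le_sum_mul_sum_of_sq_le_mul _ (fun i _ => by positivity)
      (fun i _ => by positivity) (fun i _ => le_of_eq ?_)
    by_cases h4 : X p i = 0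
    · simp [h4]
    by_cases h5 : X q (π i) = 0
    · simp [h5]
    have h6 := norm_ne_zero_iff.2 h4
    have h7 := norm_ne_zero_iff.2 h5
    field_simp
  have h8 : ∑ i, ‖X p i‖⁻¹ * ‖X q (π i)‖⁻¹ *
        inner ℝ ((I.A X ^ k) (X p i)) ((I.A X ^ k) (X q (π i))) ^ 2 ≤ I.gram X k p q := by
    rw [Game.gram]
    refine sum_le_sum fun i _ => ?_
    exact single_le_sum (f := fun j => ‖X p i‖⁻¹ * ‖X q j‖⁻¹ *
      inner ℝ ((I.A X ^ k) (X p i)) ((I.A X ^ k) (X q j)) ^ 2) (fun j _ => by positivity)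
      (mem_univ (π i))
  have h9 : 0 ≤ ∑ i, ‖X p i‖⁻¹ * ‖X q (π i)‖⁻¹ *
        inner ℝ ((I.A X ^ k) (X p i)) ((I.A X ^ k) (X q (π i))) ^ 2 :=
    sum_nonneg fun i _ => by positivity
  simp_rw [inner_A_pow] at h3 h8 h9
  calc (∑ i, inner ℝ (X p i) ((I.A X ^ (2 * k)) (X q (π i)))) ^ 2 ≤ _ := h3
    _ ≤ (∑ i, ‖X p i‖⁻¹ * ‖X q (π i)‖⁻¹ *
        inner ℝ (X p i) ((I.A X ^ (2 * k)) (X q (π i))) ^ 2) * 1 :=
        mul_le_mul_of_nonneg_left h1 h9
    _ ≤ _ := by rw [mul_one]; exact h8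

include horth hz hsum in
theorem mom_sq_le {μ : ℝ} (hμ : 0 ≤ μ) (hI : I.SecondEigenvalueLE μ) (k : ℕ) :
    I.mom X (2 * k) 0 ^ 2 ≤ μ + 2 / (2 * k + 1) := by
  have hι : (0 : ℝ) < Fintype.card ι := by exact_mod_cast Fintype.card_pos
  set N : ℝ := (Fintype.card ι : ℝ) with hN
  have h1 := gap_vector I hμ hI
    (fun u => tens (fun i => ‖X (Sum.inl u) i‖⁻¹) (fun i => (I.A X ^ k) (X (Sum.inl u) i)))
    (fun w => tens (fun i => ‖X (Sum.inr w) i‖⁻¹) (fun i => (I.A X ^ k) (X (Sum.inr w) i)))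
  simp_rw [sq, ← gram_eq] at h1
  have h2 := sum_gram_le I horth hz hsum k
  have h3 : ∑ e, I.gram X k (Sum.inl (I.src e)) (Sum.inl (I.src e)) ≤ N := by
    calc ∑ e, I.gram X k (Sum.inl (I.src e)) (Sum.inl (I.src e)) ≤ ∑ _e : ι, (1 : ℝ) :=
          sum_le_sum fun e _ => gram_le_one I horth hz hsum k _ _
      _ = N := by simp [hN]
  have h4 : ∑ e, I.gram X k (Sum.inr (I.dst e)) (Sum.inr (I.dst e)) ≤ N := by
    calc ∑ e, I.gram X k (Sum.inr (I.dst e)) (Sum.inr (I.dst e)) ≤ ∑ _e : ι, (1 : ℝ) :=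
          sum_le_sum fun e _ => gram_le_one I horth hz hsum k _ _
      _ = N := by simp [hN]
  have h5 : ∑ e, I.gram X k (Sum.inl (I.src e)) (Sum.inr (I.dst e)) ≤
      N * (μ + 2 / (2 * k + 1)) := by
    refine h1.trans ?_
    have h6 : (∑ e, ∑ e', I.gram X k (Sum.inl (I.src e)) (Sum.inr (I.dst e'))) / N ≤
        N * (2 / (2 * k + 1)) := by
      rw [div_le_iff₀ hι]
      refine h2.trans (le_of_eq ?_)
      ring
    have h7 : μ * ((∑ e, I.gram X k (Sum.inl (I.src e)) (Sum.inl (I.src e)) +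
        ∑ e, I.gram X k (Sum.inr (I.dst e)) (Sum.inr (I.dst e))) / 2) ≤ μ * N :=
      mul_le_mul_of_nonneg_left (by linarith) hμ
    linarith
  have h8 : I.mom X (2 * k) 0 = (∑ e, ∑ i, inner ℝ (X (Sum.inl (I.src e)) i)
    ((I.A X ^ (2 * k)) (X (Sum.inr (I.dst e)) (I.perm e i)))) / N := by
    rw [Game.mom]
    simp only [pow_zero, Module.End.one_apply]
    rfl
  rw [h8, div_pow, div_le_iff₀ (by positivity)]
  calc (∑ e, ∑ i, inner ℝ (X (Sum.inl (I.src e)) i)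
        ((I.A X ^ (2 * k)) (X (Sum.inr (I.dst e)) (I.perm e i)))) ^ 2
      ≤ N * ∑ e, (∑ i, inner ℝ (X (Sum.inl (I.src e)) i)
        ((I.A X ^ (2 * k)) (X (Sum.inr (I.dst e)) (I.perm e i)))) ^ 2 := by
        have := sq_sum_le_card_mul_sum_sq (s := (univ : Finset ι))
          (f := fun e => ∑ i, inner ℝ (X (Sum.inl (I.src e)) i)
            ((I.A X ^ (2 * k)) (X (Sum.inr (I.dst e)) (I.perm e i))))
        rwa [card_univ] at this
    _ ≤ N * ∑ e, I.gram X k (Sum.inl (I.src e)) (Sum.inr (I.dst e)) :=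
        mul_le_mul_of_nonneg_left (sum_le_sum fun e _ => edge_sq_le I horth hz hsum k _ _ _) hι.le
    _ ≤ N * (N * (μ + 2 / (2 * k + 1))) := mul_le_mul_of_nonneg_left h5 hι.le
    _ = (μ + 2 / (2 * k + 1)) * N ^ 2 := by ring

end solution

/-- The explicit form of the positive part: the value of a game whose graph has second eigenvalue
at most `μ` is bounded below in terms of the objective of a solution. -/
theorem explicit_bound {U W Ω ι κ : Type} [Fintype ι] [Fintype Ω] [Fintype κ]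
    (I : Game U W Ω ι) {μ : ℝ} (hμ : 0 ≤ μ) (hI : I.SecondEigenvalueLE μ)
    {X : U ⊕ W → Ω → EuclideanSpace ℝ κ} (hX : IsSDPSolution X) (k : ℕ) :
    I.sdpObjective X ≤ √(μ + 2 / (2 * k + 1)) + 4 ^ k * I.value := by
  obtain ⟨horth, hpos, z, hz, hsum⟩ := hX
  rcases isEmpty_or_nonempty ι with hι | hι
  · have h1 : I.sdpObjective X = 0 := by simp [Game.sdpObjective]
    have h2 : 0 ≤ I.value := by
      rw [Game.value]
      refine Real.iSup_nonneg fun p => satFrac_nonneg I _ _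
    rw [h1]
    positivity
  · obtain ⟨e0⟩ := id hι
    have hΩ : Nonempty Ω := by
      by_contra h
      rw [not_nonempty_iff] at h
      have := hsum (Sum.inl (I.src e0))
      rw [univ_eq_empty, sum_empty] at this
      rw [← this, norm_zero] at hz
      exact zero_ne_one hz
    have h1 := mom_zero_le I horth hpos hz hsum (2 * k)
    have h2 := mom_sq_le I horth hz hsum hμ hI k
    have h3 : I.mom X (2 * k) 0 ≤ √(μ + 2 / (2 * k + 1)) := Real.le_sqrt_of_sq_le h2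
    have h4 : I.mom X 0 0 = I.sdpObjective X := by
      rw [Game.mom, Game.sdpObjective]
      simp only [pow_zero, Module.End.one_apply]
    have h5 : 0 ≤ I.value := value_nonneg I
    have h6 : (2 : ℝ) ^ (2 * k) = 4 ^ k := by
      rw [pow_mul]
      norm_num
    rw [h4, h6] at h1
    nlinarith

end Pool.Agent.Lib.P325x
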